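import Pool.Agent.V11213.SlTwo.Rep

/-!
# The `sl(2)` weight system takes values in polynomials in the Casimir element
-/

open Finset Polynomial

namespace Pool.Agent.V11213.SlTwo

section central

variable {ι : Type*} [Fintype ι] [DecidableEq ι] {A : Type*} [Ring A] [Algebra ℂ A]

/-- Value of a word of labels under a colouring. -/
def evl (e : Fin 3 → A) (w : List ι) (f : ι → Fin 3) : A := (w.map fun i => e (f i)).prod

/-- Sum over all colourings. -/
def TT (e : Fin 3 → A) (w : List ι) : A := ∑ f : ι → Fin 3, evl e w f

omit [Fintype ι] [DecidableEq ι] [Algebra ℂ A] in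
lemma evl_append (e : Fin 3 → A) (u v : List ι) (f : ι → Fin 3) :
    evl e (u ++ v) f = evl e u f * evl e v f := by simp [evl]

omit [Fintype ι] [DecidableEq ι] [Algebra ℂ A] in
lemma evl_cons (e : Fin 3 → A) (i : ι) (v : List ι) (f : ι → Fin 3) :
    evl e (i :: v) f = e (f i) * evl e v f := by simp [evl]

omit [Fintype ι] [Algebra ℂ A] in
lemma evl_update (e : Fin 3 → A) (w : List ι) (f : ι → Fin 3) (j : ι) (m : Fin 3) (hw : j ∉ w) :
    evl e w (Function.update f j m) = evl e w f := by
  unfold evl
  congr 1
  apply List.map_congr_left
  intro i hi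
  have : i ≠ j := by rintro rfl; exact hw hi
  rw [Function.update_of_ne this]

/-- The relations satisfied by an orthonormal frame of `sl(2)`. -/
structure Frame (e : Fin 3 → A) : Prop where
  br : ∀ a b c, (e a * e b - e b * e a) * e c - e c * (e a * e b - e b * e a) =
    (1/2 : ℂ) • ((if b = c then e a else 0) - (if a = c then e b else 0))
  cen : ∀ a, (∑ k, e k * e k) * e a = e a * ∑ k, e k * e k
  psi : ∀ a, ∑ k, (e k * e a - e a * e k) * e k = (-1/2 : ℂ) • e a

/-- Every label occurs zero or two times. -/
def Good (w : List ι) : Prop := ∀ i, w.count i = 0 ∨ w.count i = 2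

variable {e : Fin 3 → A}

omit [Fintype ι] [DecidableEq ι] in
lemma cen_evl (he : Frame e) (w : List ι) (f : ι → Fin 3) :
    (∑ k, e k * e k) * evl e w f = evl e w f * ∑ k, e k * e k := by
  induction w with
  | nil => simp [evl]
  | cons i w ih => rw [evl_cons, ← mul_assoc, he.cen, mul_assoc, ih, mul_assoc]

lemma three_sum (i : ι) (F : (ι → Fin 3) → A) :
    (3 : ℂ) • ∑ f, F f = ∑ f : ι → Fin 3, ∑ m, F (Function.update f i m) := by
  rw [sum_update (ι := ι) (κ := Fin 3) i F, Fintype.card_fin, ← Nat.cast_smul_eq_nsmul ℂ]
  norm_num

lemma TT_ii (he : Frame e) {U Z : List ι} {i : ι} (hU : i ∉ U) (hZ : i ∉ Z) :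
    (3 : ℂ) • TT e (U ++ i :: i :: Z) = (∑ k, e k * e k) * TT e (U ++ Z) := by
  unfold TT
  rw [three_sum i, Finset.mul_sum]
  refine Finset.sum_congr rfl fun f _ => ?_
  rw [evl_append, ← mul_assoc, cen_evl he, mul_assoc, Finset.sum_mul, Finset.mul_sum]
  refine Finset.sum_congr rfl fun m _ => ?_
  rw [evl_append, evl_cons, evl_cons, evl_update _ _ _ _ _ hU, evl_update _ _ _ _ _ hZ]
  simp [mul_assoc]

lemma TT_iji (he : Frame e) {U Z : List ι} {i j : ι} (hij : i ≠ j) (hU : i ∉ U) (hZ : i ∉ Z) :
    (3 : ℂ) • (TT e (U ++ i :: j :: i :: Z) - TT e (U ++ j :: i :: i :: Z)) =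
      (-1/2 : ℂ) • TT e (U ++ j :: Z) := by
  unfold TT
  rw [← Finset.sum_sub_distrib, three_sum i, Finset.smul_sum]
  refine Finset.sum_congr rfl fun f _ => ?_
  have h1 : ∀ m : Fin 3, evl e (U ++ i :: j :: i :: Z) (Function.update f i m) -
      evl e (U ++ j :: i :: i :: Z) (Function.update f i m) =
      evl e U f * ((e m * e (f j) - e (f j) * e m) * e m) * evl e Z f := by
    intro m
    simp only [evl_append, evl_cons, evl_update _ _ _ _ _ hU, evl_update _ _ _ _ _ hZ,
      Function.update_self, Function.update_of_ne hij.symm]
    noncomm_ring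
  simp only [h1]
  rw [← Finset.sum_mul, ← Finset.mul_sum, he.psi, evl_append, evl_cons]
  simp only [mul_smul_comm, smul_mul_assoc, mul_assoc]

/-- The remainder term. -/
lemma TT_rem (he : Frame e) {U Y Z : List ι} {i j l : ι} (hij : i ≠ j) (hil : i ≠ l)
    (hU : i ∉ U) (hY : i ∉ Y) (hZ : i ∉ Z) :
    (3 : ℂ) • (TT e (U ++ i :: j :: l :: (Y ++ i :: Z)) - TT e (U ++ j :: i :: l :: (Y ++ i :: Z)) -
      (TT e (U ++ l :: i :: j :: (Y ++ i :: Z)) - TT e (U ++ l :: j :: i :: (Y ++ i :: Z)))) =
    (1/2 : ℂ) • ((3 : ℂ) • (∑ f : ι → Fin 3, if f j = f l then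
      evl e (U ++ i :: (Y ++ i :: Z)) f else 0)) - (1/2 : ℂ) • TT e (U ++ j :: (Y ++ l :: Z)) := by
  have h1 : ∀ f : ι → Fin 3, evl e (U ++ i :: j :: l :: (Y ++ i :: Z)) f -
      evl e (U ++ j :: i :: l :: (Y ++ i :: Z)) f - (evl e (U ++ l :: i :: j :: (Y ++ i :: Z)) f -
      evl e (U ++ l :: j :: i :: (Y ++ i :: Z)) f) =
      (1/2 : ℂ) • (if f j = f l then evl e (U ++ i :: (Y ++ i :: Z)) f else 0) -
      (1/2 : ℂ) • (if f i = f l then evl e (U ++ j :: (Y ++ l :: Z)) f else 0) := by
    intro f
    have h2 : evl e (U ++ i :: j :: l :: (Y ++ i :: Z)) f -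
      evl e (U ++ j :: i :: l :: (Y ++ i :: Z)) f - (evl e (U ++ l :: i :: j :: (Y ++ i :: Z)) f -
      evl e (U ++ l :: j :: i :: (Y ++ i :: Z)) f) =
      evl e U f * ((e (f i) * e (f j) - e (f j) * e (f i)) * e (f l) -
        e (f l) * (e (f i) * e (f j) - e (f j) * e (f i))) *
        (evl e Y f * (e (f i) * evl e Z f)) := by
      simp only [evl_append, evl_cons]
      noncomm_ring
    rw [h2, he.br]
    simp only [evl_append, evl_cons]
    by_cases c1 : f j = f l <;> by_cases c2 : f i = f l
    · simp only [c1, c2, if_true, mul_smul_comm, smul_mul_assoc, mul_sub, sub_mul, smul_sub,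
        mul_assoc]
    · simp only [c1, c2, if_true, if_false, mul_smul_comm, smul_mul_assoc, mul_sub, sub_mul,
        smul_sub, mul_assoc, mul_zero, zero_mul, smul_zero]
    · simp only [c1, c2, if_true, if_false, mul_smul_comm, smul_mul_assoc, mul_sub, sub_mul,
        smul_sub, mul_assoc, mul_zero, zero_mul, smul_zero]
    · simp only [c1, c2, if_false, mul_zero, zero_mul, smul_zero, sub_zero]
  have h3 : (3 : ℂ) • (∑ f : ι → Fin 3, if f i = f l then
      evl e (U ++ j :: (Y ++ l :: Z)) f else 0) = TT e (U ++ j :: (Y ++ l :: Z)) := by
    rw [three_sum i]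
    unfold TT
    refine Finset.sum_congr rfl fun f _ => ?_
    have h4 : i ∉ U ++ j :: (Y ++ l :: Z) := by simp [hU, hY, hZ, hij, hil]
    simp only [evl_update _ _ _ _ _ h4, Function.update_self, Function.update_of_ne hil.symm]
    rw [Finset.sum_ite_eq' univ (f l)]
    simp
  have h5 : TT e (U ++ i :: j :: l :: (Y ++ i :: Z)) - TT e (U ++ j :: i :: l :: (Y ++ i :: Z)) -
      (TT e (U ++ l :: i :: j :: (Y ++ i :: Z)) - TT e (U ++ l :: j :: i :: (Y ++ i :: Z))) =
      (1/2 : ℂ) • (∑ f : ι → Fin 3, if f j = f l then
        evl e (U ++ i :: (Y ++ i :: Z)) f else 0) -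
      (1/2 : ℂ) • (∑ f : ι → Fin 3, if f i = f l then
        evl e (U ++ j :: (Y ++ l :: Z)) f else 0) := by
    unfold TT
    rw [← Finset.sum_sub_distrib, ← Finset.sum_sub_distrib, ← Finset.sum_sub_distrib,
      Finset.sum_congr rfl fun f _ => h1 f, Finset.sum_sub_distrib, Finset.smul_sum,
      Finset.smul_sum]
  rw [h5, smul_sub, smul_comm (3 : ℂ) (1/2 : ℂ), smul_comm (3 : ℂ) (1/2 : ℂ), h3]

lemma TT_join {L : List ι} {j l : ι} (hjl : j ≠ l) :
    (3 : ℂ) • (∑ f : ι → Fin 3, if f j = f l then evl e L f else 0) =
      TT e (L.map (rep l j)) := by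
  rw [three_sum l]
  unfold TT
  refine Finset.sum_congr rfl fun f _ => ?_
  rw [Finset.sum_eq_single (f j)]
  · rw [Function.update_self, Function.update_of_ne hjl, if_pos rfl]
    unfold evl
    rw [List.map_map]
    congr 1
    apply List.map_congr_left
    intro k _
    simp only [Function.comp_apply, rep]
    by_cases hk : k = l
    · subst hk; simp
    · rw [Function.update_of_ne hk, if_neg hk]
  · intro m _ hm
    rw [Function.update_self, Function.update_of_ne hjl, if_neg (Ne.symm hm)]
  · intro h; exact absurd (Finset.mem_univ _) h

omit [Fintype ι] in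
lemma count_map_rep (L : List ι) {j l : ι} (hjl : j ≠ l) (k : ι) :
    (L.map (rep l j)).count k = if k = j then L.count j + L.count l else
      if k = l then 0 else L.count k := by
  induction L with
  | nil => simp
  | cons a L ih =>
    rw [List.map_cons, List.count_cons, ih, List.count_cons, List.count_cons, List.count_cons]
    simp only [rep, beq_iff_eq]
    split_ifs <;> subst_vars <;> simp_all <;> omega

omit [Fintype ι] in
lemma good_facts {U Y Z : List ι} {i : ι} (h : Good (U ++ i :: (Y ++ i :: Z))) :
    i ∉ U ∧ i ∉ Y ∧ i ∉ Z := by
  have h1 := h i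
  simp only [List.count_append, List.count_cons_self] at h1
  refine ⟨?_, ?_, ?_⟩ <;> rw [← List.count_eq_zero] <;> omega

theorem TT_mem (he : Frame e) (S : Subalgebra ℂ A) (hC : ∑ k, e k * e k ∈ S) :
    ∀ (m : ℕ) (w : List ι), w.length = 2 * m → Good w → TT e w ∈ S := by
  intro m
  induction m with
  | zero =>
    intro w hl _
    have : w = [] := List.eq_nil_of_length_eq_zero (by omega)
    subst this
    unfold TT
    refine Subalgebra.sum_mem _ fun f _ => ?_
    simp only [evl, List.map_nil, List.prod_nil]
    exact S.one_mem
  | succ m ih =>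
    have h3 : ∀ z : A, (3 : ℂ) • z ∈ S → z ∈ S := by
      intro z hz
      have := S.smul_mem hz (1/3 : ℂ)
      rw [smul_smul] at this
      norm_num at this
      exact this
    -- differences
    have diff : ∀ (Y U Z : List ι) (i j : ι), i ≠ j → Good (U ++ i :: j :: (Y ++ i :: Z)) →
        (U ++ i :: j :: (Y ++ i :: Z)).length = 2 * (m + 1) →
        TT e (U ++ i :: j :: (Y ++ i :: Z)) - TT e (U ++ j :: i :: (Y ++ i :: Z)) ∈ S := by
      intro Y
      induction Y with
      | nil =>
        intro U Z i j hij hg hl
        simp only [List.nil_append] at hg hl ⊢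
        have hf := good_facts (U := U) (Y := [j]) (Z := Z) (i := i) hg
        apply h3
        rw [TT_iji he hij hf.1 hf.2.2]
        apply S.smul_mem
        apply ih
        · simp only [List.length_append, List.length_cons] at hl ⊢; omega
        · intro k
          have := hg k
          by_cases hk : k = i
          · subst hk
            left
            have h1 := List.count_eq_zero.2 hf.1
            have h2 := List.count_eq_zero.2 hf.2.2
            simp only [List.count_append, List.count_cons, h1, h2, beq_iff_eq, hij.symm, if_false]
          · simp only [List.count_append, List.count_cons, beq_iff_eq, Ne.symm hk, if_false]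
              at this ⊢
            exact this
      | cons l Y ihY =>
        intro U Z i j hij hg hl
        have hf := good_facts (U := U) (Y := j :: l :: Y) (Z := Z) (i := i) hg
        simp only [List.mem_cons, not_or] at hf
        obtain ⟨hU, ⟨_, hil, hY⟩, hZ⟩ := hf
        rw [List.cons_append] at hg hl ⊢
        have hcnt : ∀ k, (U ++ i :: j :: l :: (Y ++ i :: Z)).count k =
            U.count k + Y.count k + Z.count k + (if i = k then 2 else 0) +
            (if j = k then 1 else 0) + (if l = k then 1 else 0) := by
          intro k
          simp only [List.count_append, List.count_cons, beq_iff_eq]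
          split_ifs <;> omega
        -- the first difference
        have d1 : TT e (U ++ l :: i :: j :: (Y ++ i :: Z)) - TT e (U ++ l :: j :: i :: (Y ++ i :: Z))
            ∈ S := by
          have := ihY (U ++ [l]) Z i j hij (by
            intro k
            have h1 := hg k
            rw [hcnt] at h1
            have : (U ++ [l] ++ i :: j :: (Y ++ i :: Z)).count k =
                U.count k + Y.count k + Z.count k + (if i = k then 2 else 0) +
                (if j = k then 1 else 0) + (if l = k then 1 else 0) := by
              simp only [List.count_append, List.count_cons, beq_iff_eq, List.count_nil]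
              split_ifs <;> omega
            rw [this]
            exact h1) (by
            simp only [List.length_append, List.length_cons, List.length_nil] at hl ⊢; omega)
          simpa using this
        have g2 : Good (U ++ j :: (Y ++ l :: Z)) := by
          intro k
          have h1 := hg k
          rw [hcnt] at h1
          simp only [List.count_append, List.count_cons, beq_iff_eq]
          by_cases hk : i = k
          · subst hk
            rw [if_pos rfl, if_neg (Ne.symm hij), if_neg (Ne.symm hil)] at h1
            rw [if_neg (Ne.symm hij), if_neg (Ne.symm hil)]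
            omega
          · rw [if_neg hk] at h1
            omega
        have d2 : TT e (U ++ j :: (Y ++ l :: Z)) ∈ S := by
          apply ih _ _ g2
          simp only [List.length_append, List.length_cons] at hl ⊢; omega
        have d3 : (3 : ℂ) • (∑ f : ι → Fin 3, if f j = f l then
            evl e (U ++ i :: (Y ++ i :: Z)) f else 0) ∈ S := by
          by_cases hjl : j = l
          · subst hjl
            apply S.smul_mem
            have : (∑ f : ι → Fin 3, if f j = f j then
              evl e (U ++ i :: (Y ++ i :: Z)) f else 0) = TT e (U ++ i :: (Y ++ i :: Z)) := by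
              unfold TT
              refine Finset.sum_congr rfl fun f _ => ?_
              rw [if_pos rfl]
            rw [this]
            apply ih
            · simp only [List.length_append, List.length_cons] at hl ⊢; omega
            · intro k
              have h1 := hg k
              rw [hcnt] at h1
              simp only [List.count_append, List.count_cons, beq_iff_eq]
              split_ifs at h1 ⊢ <;> (try simp only [false_or] at h1 ⊢) <;> omega
          · rw [TT_join hjl]
            apply ih
            · simp only [List.length_map, List.length_append, List.length_cons] at hl ⊢; omega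
            · intro k
              rw [count_map_rep _ hjl]
              have h1 := hg k
              have h2 := hg j
              have h3 := hg l
              rw [hcnt] at h1 h2 h3
              have hlj : ¬ l = j := Ne.symm hjl
              have hil' : ¬ i = l := hil
              simp only [hij, hlj, hjl, hil', if_true, if_false] at h2 h3
              simp only [List.count_append, List.count_cons, beq_iff_eq]
              by_cases hk : k = j
              · rw [if_pos hk]
                simp only [hij, hil', if_false]
                omega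
              · rw [if_neg hk]
                by_cases hk2 : k = l
                · rw [if_pos hk2]; left; rfl
                · rw [if_neg hk2]
                  rw [if_neg (Ne.symm hk), if_neg (Ne.symm hk2)] at h1
                  split_ifs at h1 ⊢ <;> (try simp only [false_or] at h1 ⊢) <;> omega
        have key := TT_rem he (U := U) (Y := Y) (Z := Z) hij hil hU hY hZ
        have d4 : TT e (U ++ i :: j :: l :: (Y ++ i :: Z)) -
            TT e (U ++ j :: i :: l :: (Y ++ i :: Z)) -
            (TT e (U ++ l :: i :: j :: (Y ++ i :: Z)) -
              TT e (U ++ l :: j :: i :: (Y ++ i :: Z))) ∈ S := by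
          apply h3
          rw [key]
          exact S.sub_mem (S.smul_mem d3 _) (S.smul_mem d2 _)
        have := S.add_mem d4 d1
        rwa [sub_add_cancel] at this
    have main : ∀ (Y U Z : List ι) (i : ι), Good (U ++ i :: (Y ++ i :: Z)) →
        (U ++ i :: (Y ++ i :: Z)).length = 2 * (m + 1) →
        TT e (U ++ i :: (Y ++ i :: Z)) ∈ S := by
      intro Y
      induction Y with
      | nil =>
        intro U Z i hg hl
        have hf := good_facts hg
        rw [List.nil_append] at hg hl ⊢
        apply h3
        rw [TT_ii he hf.1 hf.2.2]
        apply S.mul_mem hC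
        apply ih
        · simp only [List.length_append, List.length_cons] at hl ⊢; omega
        · intro k
          have h1 := hg k
          simp only [List.count_append, List.count_cons, beq_iff_eq] at h1 ⊢
          split_ifs at h1 <;> (try simp only [false_or] at h1 ⊢) <;> omega
      | cons j Y ihY =>
        intro U Z i hg hl
        have hf := good_facts hg
        have hij : i ≠ j := fun h => hf.2.1 (by simp [h])
        rw [List.cons_append] at hg hl ⊢
        have d1 := diff Y U Z i j hij hg hl
        have d2 := ihY (U ++ [j]) Z i (by
          intro k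
          have h1 := hg k
          simp only [List.count_append, List.count_cons, beq_iff_eq, List.count_nil] at h1 ⊢
          split_ifs at h1 ⊢ <;> (try simp only [false_or] at h1 ⊢) <;> omega) (by
          simp only [List.length_append, List.length_cons, List.length_nil] at hl ⊢; omega)
        have h5 : U ++ [j] ++ i :: (Y ++ i :: Z) = U ++ j :: i :: (Y ++ i :: Z) := by simp
        rw [h5] at d2
        have := S.add_mem d1 d2
        rwa [sub_add_cancel] at this
    intro w hl hg
    match w, hl, hg with
    | [], hl, _ => simp at hl
    | i :: rest, hl, hg =>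
      have h1 : i ∈ rest := by
        have h2 := hg i
        rw [List.count_cons_self] at h2
        rw [← List.count_pos_iff]
        omega
      obtain ⟨Y, Z, rfl⟩ := List.append_of_mem h1
      exact main Y [] Z i hg hl

end central

end Pool.Agent.V11213.SlTwo
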