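import Mathlib

/-!
# Chord diagrams, intersection graphs, 4-invariants and the `sl(2)` weight system
-/

open Finset Polynomial

namespace Pool.Agent.V11213.SlTwo

/-! ### Graphs and 4-invariants -/

section graphs

variable {V : Type*}

/-- `G'_{ab}`: toggle the adjacency of `a` and `b`. -/
def toggle (G : SimpleGraph V) (a b : V) : SimpleGraph V where
  Adj u v := u ≠ v ∧ (((u = a ∧ v = b ∨ u = b ∧ v = a) ∧ ¬ G.Adj u v) ∨
    (¬ (u = a ∧ v = b ∨ u = b ∧ v = a) ∧ G.Adj u v))
  symm := ⟨by
    intro u v h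
    rw [G.adj_comm v u]
    tauto⟩
  loopless := ⟨by
    intro u h
    exact h.1 rfl⟩

/-- `G̃_{ab}`: toggle the adjacency of `a` with every vertex `v ≠ a` adjacent to `b`. -/
def slide (G : SimpleGraph V) (a b : V) : SimpleGraph V where
  Adj u v := u ≠ v ∧ (((u = a ∧ G.Adj b v ∨ v = a ∧ G.Adj b u) ∧ ¬ G.Adj u v) ∨
    (¬ (u = a ∧ G.Adj b v ∨ v = a ∧ G.Adj b u) ∧ G.Adj u v))
  symm := ⟨by
    intro u v h
    rw [G.adj_comm v u]
    tauto⟩
  loopless := ⟨by
    intro u h
    exact h.1 rfl⟩

end graphs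

/-- A 4-invariant of graphs: a complex-valued function of finite simple graphs, invariant under
isomorphism, with `f G - f G'_{ab} = f G̃_{ab} - f G̃'_{ab}` for all ordered pairs `a ≠ b`. -/
structure IsFourInvariant (ξ : (n : ℕ) → SimpleGraph (Fin n) → ℂ) : Prop where
  iso : ∀ (n : ℕ) (G G' : SimpleGraph (Fin n)), Nonempty (G ≃g G') → ξ n G = ξ n G'
  four : ∀ (n : ℕ) (G : SimpleGraph (Fin n)) (a b : Fin n), a ≠ b →
    ξ n G - ξ n (toggle G a b) = ξ n (slide G a b) - ξ n (toggle (slide G a b) a b)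

/-! ### Chord diagrams -/

/-- A chord diagram of order `n`: the `2n` points on the oriented circle are numbered
`0, 1, …, 2n-1` along the orientation (starting from some base point) and `chord p` is the (label of
the) chord ending at the point `p`; every chord has exactly two endpoints. -/
structure ChordDiagram (n : ℕ) where
  chord : Fin (2 * n) → Fin n
  two : ∀ i, (univ.filter fun p => chord p = i).card = 2

/-- The endpoints of the chords `i`, `j` alternate, the first of the four being on `i`. -/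
def ChordDiagram.Alt {n : ℕ} (D : ChordDiagram n) (i j : Fin n) : Prop :=
  ∃ a b c d : Fin (2 * n), a < b ∧ b < c ∧ c < d ∧
    D.chord a = i ∧ D.chord b = j ∧ D.chord c = i ∧ D.chord d = j

/-- The intersection graph of a chord diagram. -/
def ChordDiagram.interGraph {n : ℕ} (D : ChordDiagram n) : SimpleGraph (Fin n) where
  Adj i j := i ≠ j ∧ (D.Alt i j ∨ D.Alt j i)
  symm := ⟨by
    intro i j h
    tauto⟩
  loopless := ⟨by
    intro i h
    exact h.1 rfl⟩

/-! ### The weight system of `sl(2)` -/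

/-- The Lie algebra `sl(2)` over `ℂ`. -/
abbrev sl2 : Type := LieAlgebra.SpecialLinear.sl (Fin 2) ℂ

/-- Its universal enveloping algebra. -/
abbrev Usl2 : Type := UniversalEnvelopingAlgebra ℂ sl2

/-- The generator `E`. -/
def slE : sl2 := ⟨!![0, 1; 0, 0], LinearMap.mem_ker.2 (by simp [Matrix.trace_fin_two])⟩

/-- The generator `F`. -/
def slF : sl2 := ⟨!![0, 0; 1, 0], LinearMap.mem_ker.2 (by simp [Matrix.trace_fin_two])⟩

/-- The generator `H`. -/
def slH : sl2 := ⟨!![1, 0; 0, -1], LinearMap.mem_ker.2 (by simp [Matrix.trace_fin_two])⟩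

/-- The Casimir element `C = ¼ (E F + F E + ½ H²)`. -/
noncomputable def casimir : Usl2 :=
  (1/4 : ℂ) • (UniversalEnvelopingAlgebra.ι ℂ slE * UniversalEnvelopingAlgebra.ι ℂ slF +
    UniversalEnvelopingAlgebra.ι ℂ slF * UniversalEnvelopingAlgebra.ι ℂ slE +
    (1/2 : ℂ) • (UniversalEnvelopingAlgebra.ι ℂ slH * UniversalEnvelopingAlgebra.ι ℂ slH))

/-- The basis of `sl(2)` with `e₀ = (E+F)/√8`, `e₁ = i(E-F)/√8`, `e₂ = H/√8`. It is orthonormal for
the invariant form `4 tr(xy)`, whose Casimir element is `C`. -/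
noncomputable def orthoBasis (k : Fin 3) : sl2 :=
  ((1 / Real.sqrt 8 : ℝ) : ℂ) •
    (if k = 0 then slE + slF else if k = 1 then Complex.I • (slE - slF) else slH)

/-- The `sl(2)` weight system on a chord diagram, with values in `U(sl(2))`: put the Casimir tensor
`∑ₖ eₖ ⊗ eₖ` on every chord and multiply along the circle. -/
noncomputable def weightSl2 {n : ℕ} (D : ChordDiagram n) : Usl2 :=
  ∑ f : Fin n → Fin 3,
    (List.ofFn fun p => UniversalEnvelopingAlgebra.ι ℂ (orthoBasis (f (D.chord p)))).prod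

end Pool.Agent.V11213.SlTwo
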