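import Pool.Agent.V11213.SlTwo.Double

/-!
# The word of a chord diagram
-/

open Finset Polynomial

namespace Pool.Agent.V11213.SlTwo

variable {n : ℕ}

namespace ChordDiagram

variable (D : ChordDiagram n)

lemma exists_ends : ∃ fst snd : Fin n → Fin (2 * n), (∀ i, fst i < snd i) ∧
    ∀ p i, D.chord p = i ↔ p = fst i ∨ p = snd i := by
  have h : ∀ i, ∃ a b : Fin (2 * n), a < b ∧ ∀ p, D.chord p = i ↔ p = a ∨ p = b := by
    intro i
    obtain ⟨x, y, hxy, hs⟩ := Finset.card_eq_two.1 (D.two i)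
    have hm : ∀ p, D.chord p = i ↔ p = x ∨ p = y := by
      intro p
      have : p ∈ univ.filter (fun p => D.chord p = i) ↔ p ∈ ({x, y} : Finset (Fin (2 * n))) := by
        rw [hs]
      simpa using this
    rcases lt_or_gt_of_ne hxy with h1 | h1
    · exact ⟨x, y, h1, hm⟩
    · exact ⟨y, x, h1, fun p => by rw [hm, or_comm]⟩
  choose a b hab hm using h
  exact ⟨a, b, hab, fun p i => hm i p⟩

/-- First endpoint. -/
noncomputable def fst : Fin n → Fin (2 * n) := D.exists_ends.choose

/-- Second endpoint. -/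
noncomputable def snd : Fin n → Fin (2 * n) := D.exists_ends.choose_spec.choose

lemma fst_lt_snd (i : Fin n) : D.fst i < D.snd i := D.exists_ends.choose_spec.choose_spec.1 i

lemma chord_eq_iff (p : Fin (2 * n)) (i : Fin n) : D.chord p = i ↔ p = D.fst i ∨ p = D.snd i :=
  D.exists_ends.choose_spec.choose_spec.2 p i

lemma chord_fst (i : Fin n) : D.chord (D.fst i) = i := (D.chord_eq_iff _ _).2 (Or.inl rfl)

lemma chord_snd (i : Fin n) : D.chord (D.snd i) = i := (D.chord_eq_iff _ _).2 (Or.inr rfl)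

/-- The half-edge at a point. -/
noncomputable def he (p : Fin (2 * n)) : Fin n × Bool := (D.chord p, decide (p = D.snd (D.chord p)))

lemma he_fst (i : Fin n) : D.he (D.fst i) = (i, false) := by
  unfold he
  rw [D.chord_fst]
  simp [(D.fst_lt_snd i).ne]

lemma he_snd (i : Fin n) : D.he (D.snd i) = (i, true) := by
  unfold he
  rw [D.chord_snd]
  simp

lemma he_inj : Function.Injective D.he := by
  intro p p' h
  have h1 : D.chord p = D.chord p' := congrArg Prod.fst h
  rcases (D.chord_eq_iff p _).1 rfl with h2 | h2 <;>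
  rcases (D.chord_eq_iff p' _).1 h1.symm with h3 | h3
  · rw [h2, h3]
  · rw [h2, h3, D.he_fst, D.he_snd] at h
    simp at h
  · rw [h2, h3, D.he_fst, D.he_snd] at h
    simp at h
  · rw [h2, h3]

/-- The word of half-edges of a chord diagram. -/
noncomputable def hw : List (Fin n × Bool) := List.ofFn D.he

lemma length_hw : D.hw.length = 2 * Fintype.card (Fin n) := by
  simp [hw]

lemma nodup_hw : D.hw.Nodup := by
  unfold hw
  rw [List.nodup_ofFn]
  exact D.he_inj

lemma pos_hw (p : Fin (2 * n)) : pos D.hw (D.he p) = p := by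
  have h1 : (p : ℕ) < D.hw.length := by simp [hw]
  have h2 : D.hw[(p : ℕ)] = D.he p := by simp [hw]
  unfold pos
  rw [← h2]
  exact List.Nodup.idxOf_getElem D.nodup_hw _ _

lemma full_hw : Full D.hw where
  nodup := D.nodup_hw
  all := by
    rintro ⟨i, s⟩
    unfold hw
    rw [List.mem_ofFn]
    cases s
    · exact ⟨_, D.he_fst i⟩
    · exact ⟨_, D.he_snd i⟩
  ord := by
    intro i
    rw [← D.he_fst, ← D.he_snd, D.pos_hw, D.pos_hw]
    exact D.fst_lt_snd i

lemma alt_iff (i j : Fin n) (hij : i ≠ j) : D.Alt i j ↔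
    D.fst i < D.fst j ∧ D.fst j < D.snd i ∧ D.snd i < D.snd j := by
  constructor
  · rintro ⟨a, b, c, d, hab, hbc, hcd, ha, hb, hc, hd⟩
    rw [D.chord_eq_iff] at ha hb hc hd
    have h1 := D.fst_lt_snd i
    have h2 := D.fst_lt_snd j
    rcases ha with rfl | rfl <;> rcases hc with rfl | rfl <;>
    rcases hb with rfl | rfl <;> rcases hd with rfl | rfl <;>
    first
      | exact ⟨hab, hbc, hcd⟩
      | (exfalso; omega)
  · rintro ⟨h1, h2, h3⟩
    exact ⟨_, _, _, _, h1, h2, h3, D.chord_fst i, D.chord_fst j, D.chord_snd i, D.chord_snd j⟩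

lemma adj_iff (i j : Fin n) (hij : i ≠ j) :
    D.interGraph.Adj i j ↔ chi (pos D.hw) i j = -1 := by
  have h0 : D.interGraph.Adj i j ↔ (D.Alt i j ∨ D.Alt j i) :=
    ⟨fun h => h.2, fun h => ⟨hij, h⟩⟩
  rw [h0, D.alt_iff i j hij, D.alt_iff j i hij.symm]
  have h1 := D.fst_lt_snd i
  have h2 := D.fst_lt_snd j
  have hne : ∀ p q : Fin (2 * n), D.chord p = i → D.chord q = j → p ≠ q := by
    rintro p q hp hq rfl
    exact hij (hp.symm.trans hq)
  have n1 := hne _ _ (D.chord_fst i) (D.chord_fst j)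
  have n2 := hne _ _ (D.chord_fst i) (D.chord_snd j)
  have n3 := hne _ _ (D.chord_snd i) (D.chord_fst j)
  have n4 := hne _ _ (D.chord_snd i) (D.chord_snd j)
  unfold chi bet
  rw [← D.he_fst i, ← D.he_snd i, ← D.he_fst j, ← D.he_snd j]
  simp only [pos_hw]
  have e : ∀ p q : Fin (2 * n), ((p : ℕ) < (q : ℕ)) ↔ p < q := fun p q => Iff.rfl
  simp only [e]
  rcases lt_or_gt_of_ne n1 with m1 | m1 <;>
  rcases lt_or_gt_of_ne n2 with m2 | m2 <;>
  rcases lt_or_gt_of_ne n3 with m3 | m3 <;>
  rcases lt_or_gt_of_ne n4 with m4 | m4 <;>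
  simp only [m1, m2, m3, m4, not_lt_of_gt m1, not_lt_of_gt m2, not_lt_of_gt m3, not_lt_of_gt m4,
    if_true, if_false, and_true, and_false, true_and, false_and, or_true, or_false, true_or,
    false_or, and_self, or_self] <;>
  first
    | (exfalso; omega)
    | norm_num

lemma EE_hw {A : Type*} [Ring A] [Algebra ℂ A] (R : Fin 3 → A) :
    ∑ f : Fin n → Fin 3, (List.ofFn fun p => R (f (D.chord p))).prod =
      EE (fun k _ => R k) D.hw := by
  unfold EE ev hw
  refine Finset.sum_congr rfl fun f _ => ?_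
  rw [List.map_ofFn]
  rfl

end ChordDiagram

end Pool.Agent.V11213.SlTwo
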