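import Pool.Agent.V11213.SlTwo.Eval
import Pool.Agent.V11213.SlTwo.Defs

open Finset Polynomial

namespace Pool.Agent.V11213.SlTwo

variable {V : Type*} [Fintype V] [DecidableEq V]

/-- Square root of the sign of a pair of doubled vertices. -/
noncomputable def jj (σ : V × Bool → V × Bool → Bool) (u v : V) : ℂ :=
  (if σ (u, false) (v, false) then Complex.I else 1) *
    (if σ (u, false) (v, true) then Complex.I else 1) *
    ((if σ (u, true) (v, false) then Complex.I else 1) *
    (if σ (u, true) (v, true) then Complex.I else 1))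

/-- Sign of a pair of doubled vertices. -/
noncomputable def eps (σ : V × Bool → V × Bool → Bool) (u v : V) : ℂ :=
  (if σ (u, false) (v, false) then -1 else 1) *
    (if σ (u, false) (v, true) then -1 else 1) *
    ((if σ (u, true) (v, false) then -1 else 1) *
    (if σ (u, true) (v, true) then -1 else 1))

/-- Factor of an ordered pair of vertices. -/
noncomputable def gf (G : SimpleGraph V) (σ : V × Bool → V × Bool → Bool) (u v : V) : ℂ :=
  open Classical in if G.Adj u v then jj σ u v else 1

/-- Diagonal factor. -/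
noncomputable def dg (σ : V × Bool → V × Bool → Bool) : ℂ :=
  ∏ u, if σ (u, false) (u, true) then 0 else 2

/-- The weight of a colouring pattern of the doubled vertices. -/
noncomputable def gw (G : SimpleGraph V) (σ : V × Bool → V × Bool → Bool) : ℂ :=
  dg σ * ∏ u, ∏ v, gf G σ u v

omit [Fintype V] [DecidableEq V] in
lemma eps_sq (σ : V × Bool → V × Bool → Bool) (u v : V) : eps σ u v * eps σ u v = 1 := by
  unfold eps
  split_ifs <;> simp

omit [Fintype V] [DecidableEq V] in
lemma eps_eq (σ : V × Bool → V × Bool → Bool) (u v : V) : eps σ u v = 1 ∨ eps σ u v = -1 := by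
  unfold eps
  split_ifs <;> simp

omit [Fintype V] [DecidableEq V] in
lemma jj_mul (σ : V × Bool → V × Bool → Bool) (hσ : ∀ a b, σ a b = σ b a) (u v : V) :
    jj σ u v * jj σ v u = eps σ u v := by
  unfold jj eps
  rw [hσ (v, false) (u, false), hσ (v, false) (u, true), hσ (v, true) (u, false),
    hσ (v, true) (u, true)]
  have h : ∀ b : Bool, (if b then Complex.I else 1) * (if b then Complex.I else 1) =
      (if b then (-1 : ℂ) else 1) := by
    intro b; cases b <;> simp
  rw [← h, ← h, ← h, ← h]
  ring

omit [Fintype V] [DecidableEq V] in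
lemma gf_mul (G : SimpleGraph V) (σ : V × Bool → V × Bool → Bool) (hσ : ∀ a b, σ a b = σ b a)
    (u v : V) : gf G σ u v * gf G σ v u =
      open Classical in if G.Adj u v then eps σ u v else 1 := by
  classical
  unfold gf
  rw [G.adj_comm v u]
  by_cases h : G.Adj u v
  · simp [h, jj_mul σ hσ]
  · simp [h]

lemma gw_split (G : SimpleGraph V) (σ : V × Bool → V × Bool → Bool) (hσ : ∀ a b, σ a b = σ b a)
    (a b : V) (hab : a ≠ b) : gw G σ = open Classical in dg σ *
      ((if G.Adj a b then eps σ a b else 1) *
      (∏ k ∈ (univ.erase a).erase b, ((if G.Adj a k then eps σ a k else 1) *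
        (if G.Adj b k then eps σ b k else 1))) *
      ∏ k ∈ (univ.erase a).erase b, ∏ l ∈ (univ.erase a).erase b, gf G σ k l) := by
  classical
  unfold gw
  rw [prod_split a b hab (gf G σ)]
  have h1 : ∀ u, gf G σ u u = 1 := by intro u; simp [gf]
  rw [h1, h1, one_mul, mul_one, gf_mul G σ hσ]
  simp only [gf_mul G σ hσ]

/-- The colour-counting polynomial of a graph. -/
noncomputable def cpol (G : SimpleGraph V) : ℂ[X] := pol (ι := V × Bool) (gw G)

lemma cpol_eval (G : SimpleGraph V) (N : ℕ) :
    (cpol G).eval (N : ℂ) = ∑ f : V × Bool → Fin N, gw G (pat f) := pol_eval _ N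

lemma cpol_iso (G G' : SimpleGraph V) (φ : G ≃g G') : cpol G = cpol G' := by
  apply poly_ext
  intro N
  rw [cpol_eval, cpol_eval]
  let ψ : V × Bool ≃ V × Bool := Equiv.prodCongr φ.toEquiv (Equiv.refl _)
  have := Equiv.sum_comp (Equiv.arrowCongr ψ (Equiv.refl (Fin N))) (fun f => gw G' (pat f))
  rw [← this]
  refine Finset.sum_congr rfl fun f _ => ?_
  unfold gw dg
  have hp : ∀ u s v t, pat ((Equiv.arrowCongr ψ (Equiv.refl (Fin N))) f) (φ u, s) (φ v, t) =
      pat f (u, s) (v, t) := by
    intro u s v t
    have h : ∀ u, φ.toEquiv.symm (φ u) = u := φ.toEquiv.symm_apply_apply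
    change decide (f (φ.toEquiv.symm (φ u), s) = f (φ.toEquiv.symm (φ v), t)) = _
    rw [h, h]
    rfl
  congr 1
  · refine Fintype.prod_equiv φ.toEquiv _ _ fun u => ?_
    have := hp u false u true
    simp only [RelIso.coe_fn_toEquiv] at *
    simp only [this]
  · refine Fintype.prod_equiv φ.toEquiv _ _ fun u => ?_
    refine Fintype.prod_equiv φ.toEquiv _ _ fun v => ?_
    unfold gf jj
    have h1 : ∀ u, φ.toEquiv u = φ u := fun _ => rfl
    have h2 : G'.Adj (φ.toEquiv u) (φ.toEquiv v) ↔ G.Adj u v := φ.map_adj_iff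
    simp only [h1, hp]
    classical exact if_congr h2.symm rfl rfl

/-! ### The four-term relation -/

section four

variable {G : SimpleGraph V} {a b : V} {N : ℕ}

/-- The involution on colourings. -/
def inv (a b : V) (f : V × Bool → Fin N) : V × Bool → Fin N := fun h =>
  if h.1 = b then Equiv.swap (f (a, false)) (f (a, true)) (f h) else f h

omit [Fintype V] in
lemma inv_invol (hab : a ≠ b) : Function.Involutive (inv (N := N) a b) := by
  intro f
  funext h
  unfold inv
  by_cases hb : h.1 = b
  · simp [hb, hab]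
  · simp [hb]

/-- Partial sign. -/
noncomputable def mm (f : V × Bool → Fin N) (x : Fin N) (v : V) : ℂ :=
  (if x = f (v, false) then -1 else 1) * (if x = f (v, true) then -1 else 1)

omit [Fintype V] [DecidableEq V] in
lemma mm_sq (f : V × Bool → Fin N) (x : Fin N) (v : V) : mm f x v * mm f x v = 1 := by
  unfold mm; split_ifs <;> simp

omit [Fintype V] [DecidableEq V] in
lemma eps_mm (f : V × Bool → Fin N) (u v : V) :
    eps (pat f) u v = mm f (f (u, false)) v * mm f (f (u, true)) v := by
  unfold eps mm pat
  simp only [decide_eq_true_eq]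

omit [Fintype V] [DecidableEq V] in
lemma eps_symm (f : V × Bool → Fin N) (u v : V) : eps (pat f) u v = eps (pat f) v u := by
  unfold eps
  have h := pat_symm f
  simp only [h (v, false) (u, false), h (v, false) (u, true), h (v, true) (u, false),
    h (v, true) (u, true)]
  ring

omit [Fintype V] in
lemma mm_inv (f : V × Bool → Fin N) (x : Fin N) (v : V) (hv : v ≠ b) :
    mm (inv a b f) x v = mm f x v := by
  unfold mm inv
  simp [hv]

omit [Fintype V] in
/-- Sign of other pairs is unchanged. -/
lemma eps_inv_other (f : V × Bool → Fin N) (u v : V) (hu : u ≠ b) (hv : v ≠ b) :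
    eps (pat (inv a b f)) u v = eps (pat f) u v := by
  rw [eps_mm, eps_mm, mm_inv f _ v hv, mm_inv f _ v hv]
  simp [inv, hu]

omit [Fintype V] in
lemma eps_inv_ab (hab : a ≠ b) (f : V × Bool → Fin N) :
    eps (pat (inv a b f)) a b = eps (pat f) a b := by
  rw [eps_mm, eps_mm]
  unfold mm inv
  simp only [hab, if_false, if_true]
  have h : ∀ s t, (f (a, s) = Equiv.swap (f (a, false)) (f (a, true)) (f (b, t))) ↔
      (f (a, !s) = f (b, t)) := by
    intro s t
    rw [eq_comm, Equiv.swap_apply_eq_iff, eq_comm]
    cases s <;> simp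
  simp only [h]
  simp only [Bool.not_false, Bool.not_true]
  ring

omit [Fintype V] in
lemma eps_inv_b (_hab : a ≠ b) (f : V × Bool → Fin N) (h1 : f (a, false) ≠ f (a, true))
    (h2 : f (b, false) ≠ f (b, true)) (h3 : eps (pat f) a b = -1) (k : V) (hk : k ≠ b) :
    eps (pat (inv a b f)) b k = eps (pat f) b k * eps (pat f) a k := by
  have e1 : ∀ s, inv a b f (b, s) = Equiv.swap (f (a, false)) (f (a, true)) (f (b, s)) := by
    intro s; simp [inv]
  rw [eps_mm, eps_mm, eps_mm, mm_inv f _ k hk, mm_inv f _ k hk, e1, e1]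
  rw [eps_mm] at h3
  unfold mm at h3
  have q1 := mm_sq f (f (a, false)) k
  have q2 := mm_sq f (f (a, true)) k
  by_cases c1 : f (a, false) = f (b, false)
  · have c2 : f (a, false) ≠ f (b, true) := fun h => h2 (c1.symm.trans h)
    have c3 : f (a, true) ≠ f (b, false) := fun h => h1 (c1.trans h.symm)
    have c4 : f (a, true) ≠ f (b, true) := by
      intro c4
      rw [if_pos c1, if_neg c2, if_neg c3, if_pos c4] at h3
      norm_num at h3
    rw [← c1, Equiv.swap_apply_left, Equiv.swap_apply_of_ne_of_ne c2.symm c4.symm]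
    linear_combination (-mm f (f (b, true)) k * mm f (f (a, true)) k) * q1
  by_cases c2 : f (a, true) = f (b, true)
  · have c3 : f (a, true) ≠ f (b, false) := fun h => h2 (h.symm.trans c2)
    have c4 : f (a, false) ≠ f (b, true) := fun h => h1 (h.trans c2.symm)
    rw [← c2, Equiv.swap_apply_right, Equiv.swap_apply_of_ne_of_ne (Ne.symm c1) c3.symm]
    linear_combination (-mm f (f (b, false)) k * mm f (f (a, false)) k) * q2
  by_cases c3 : f (a, false) = f (b, true)
  · have c4 : f (a, true) ≠ f (b, false) := by
      intro c4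
      rw [if_neg c1, if_pos c3, if_pos c4, if_neg c2] at h3
      norm_num at h3
    rw [← c3, Equiv.swap_apply_left, Equiv.swap_apply_of_ne_of_ne (Ne.symm c1) c4.symm]
    linear_combination (-mm f (f (b, false)) k * mm f (f (a, true)) k) * q1
  by_cases c4 : f (a, true) = f (b, false)
  · rw [← c4, Equiv.swap_apply_right, Equiv.swap_apply_of_ne_of_ne (Ne.symm c3) (Ne.symm c2)]
    linear_combination (-mm f (f (b, true)) k * mm f (f (a, false)) k) * q2
  · exfalso
    rw [if_neg c1, if_neg c3, if_neg c4, if_neg c2] at h3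
    norm_num at h3

lemma dg_inv {a b : V} (hab : a ≠ b) (f : V × Bool → Fin N) : dg (pat (inv a b f)) = dg (pat f) := by
  unfold dg
  refine Finset.prod_congr rfl fun u _ => ?_
  by_cases hu : u = b
  · subst hu
    simp [pat, inv]
  · simp [pat, inv, hu]

omit [DecidableEq V] in
lemma dg_zero (f : V × Bool → Fin N) (u : V) (h : f (u, false) = f (u, true)) :
    dg (pat f) = 0 := by
  unfold dg
  exact Finset.prod_eq_zero (Finset.mem_univ u) (by simp [pat, h])

lemma gw_toggle (hab : a ≠ b) (f : V × Bool → Fin N) :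
    gw (toggle G a b) (pat f) = eps (pat f) a b * gw G (pat f) := by
  classical
  rw [gw_split (toggle G a b) (pat f) (pat_symm f) a b hab,
    gw_split G (pat f) (pat_symm f) a b hab]
  have t1 : (toggle G a b).Adj a b ↔ ¬ G.Adj a b := by
    simp [toggle, hab]
  have t2 : ∀ u v, ¬(u = a ∧ v = b) → ¬(u = b ∧ v = a) →
      ((toggle G a b).Adj u v ↔ G.Adj u v) := by
    intro u v h1 h2
    simp only [toggle, h1, h2, or_self, false_and, not_false_eq_true, true_and, false_or]
    exact ⟨fun h => h.2, fun h => ⟨G.ne_of_adj h, h⟩⟩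
  have e1 : ∀ k ∈ (univ.erase a).erase b,
      ((if (toggle G a b).Adj a k then eps (pat f) a k else 1) *
        (if (toggle G a b).Adj b k then eps (pat f) b k else 1)) =
      ((if G.Adj a k then eps (pat f) a k else 1) *
        (if G.Adj b k then eps (pat f) b k else 1)) := by
    intro k hk
    simp only [mem_erase, mem_univ, and_true] at hk
    simp only [t2 a k (by tauto) (by tauto), t2 b k (by tauto) (by tauto)]
  have e2 : ∀ k ∈ (univ.erase a).erase b, ∀ l ∈ (univ.erase a).erase b,
      gf (toggle G a b) (pat f) k l = gf G (pat f) k l := by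
    intro k hk l hl
    simp only [mem_erase, mem_univ, and_true] at hk hl
    unfold gf
    simp only [t2 k l (by tauto) (by tauto)]
  rw [Finset.prod_congr rfl e1, Finset.prod_congr rfl fun k hk => Finset.prod_congr rfl (e2 k hk)]
  have q := eps_sq (pat f) a b
  simp only [t1]
  by_cases h : G.Adj a b
  · simp only [h, not_true_eq_false, if_true, if_false]
    linear_combination (-dg (pat f) * (∏ k ∈ (univ.erase a).erase b,
      ((if G.Adj a k then eps (pat f) a k else 1) *
        (if G.Adj b k then eps (pat f) b k else 1))) *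
      ∏ k ∈ (univ.erase a).erase b, ∏ l ∈ (univ.erase a).erase b, gf G (pat f) k l) * q
  · simp only [h, not_false_eq_true, if_true, if_false]
    ring

lemma gw_slide (hab : a ≠ b) (f : V × Bool → Fin N) (h3 : eps (pat f) a b = -1) :
    gw (slide G a b) (pat f) = gw G (pat (inv a b f)) := by
  classical
  by_cases h1 : f (a, false) = f (a, true)
  · unfold gw
    rw [dg_inv hab, dg_zero f a h1, zero_mul, zero_mul]
  by_cases h2 : f (b, false) = f (b, true)
  · unfold gw
    rw [dg_inv hab, dg_zero f b h2, zero_mul, zero_mul]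
  rw [gw_split (slide G a b) (pat f) (pat_symm f) a b hab,
    gw_split G (pat (inv a b f)) (pat_symm _) a b hab, dg_inv hab, eps_inv_ab hab]
  have t1 : (slide G a b).Adj a b ↔ G.Adj a b := by
    simp [slide, hab, hab.symm]
  have t2 : ∀ k, k ≠ a → k ≠ b → ((slide G a b).Adj a k ↔
      (G.Adj b k ∧ ¬ G.Adj a k) ∨ (¬ G.Adj b k ∧ G.Adj a k)) := by
    intro k hka hkb
    simp only [slide, hka, true_and, false_and, or_false, ne_eq, Ne.symm hka, not_false_eq_true]
  have t3 : ∀ u v, u ≠ a → v ≠ a → ((slide G a b).Adj u v ↔ G.Adj u v) := by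
    intro u v hu hv
    simp only [slide, hu, hv, false_and, or_self, not_false_eq_true, true_and, false_or]
    exact ⟨fun h => h.2, fun h => ⟨G.ne_of_adj h, h⟩⟩
  have e1 : ∀ k ∈ (univ.erase a).erase b,
      ((if (slide G a b).Adj a k then eps (pat f) a k else 1) *
        (if (slide G a b).Adj b k then eps (pat f) b k else 1)) =
      ((if G.Adj a k then eps (pat (inv a b f)) a k else 1) *
        (if G.Adj b k then eps (pat (inv a b f)) b k else 1)) := by
    intro k hk
    simp only [mem_erase, mem_univ, and_true] at hk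
    rw [eps_inv_other f a k hab hk.1, eps_inv_b hab f h1 h2 h3 k hk.1]
    simp only [t2 k hk.2 hk.1, t3 b k hab.symm hk.2]
    have q := eps_sq (pat f) a k
    by_cases c1 : G.Adj a k <;> by_cases c2 : G.Adj b k
    · simp only [c1, c2, not_true_eq_false, and_false, false_and, or_self, if_true, if_false]
      linear_combination (-eps (pat f) b k) * q
    · simp [c1, c2]
    · simp [c1, c2, mul_comm]
    · simp [c1, c2]
  have e2 : ∀ k ∈ (univ.erase a).erase b, ∀ l ∈ (univ.erase a).erase b,
      gf (slide G a b) (pat f) k l = gf G (pat (inv a b f)) k l := by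
    intro k hk l hl
    simp only [mem_erase, mem_univ, and_true] at hk hl
    unfold gf jj pat inv
    simp only [t3 k l hk.2 hl.2, hk.1, hl.1, if_false]
  rw [Finset.prod_congr rfl e1, Finset.prod_congr rfl fun k hk => Finset.prod_congr rfl (e2 k hk)]
  simp only [t1]

theorem cpol_four (G : SimpleGraph V) (a b : V) (hab : a ≠ b) :
    cpol G - cpol (toggle G a b) = cpol (slide G a b) - cpol (toggle (slide G a b) a b) := by
  apply poly_ext
  intro N
  simp only [eval_sub, cpol_eval]
  rw [← Finset.sum_sub_distrib, ← Finset.sum_sub_distrib]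
  have h1 := Equiv.sum_comp ((inv_invol (N := N) hab).toPerm)
    (fun f => gw G (pat f) - gw (toggle G a b) (pat f))
  rw [← h1]
  refine Finset.sum_congr rfl fun f _ => ?_
  rw [Function.Involutive.coe_toPerm, gw_toggle hab, gw_toggle hab, eps_inv_ab hab]
  rcases eps_eq (pat f) a b with h | h
  · rw [h]; ring
  · rw [gw_slide hab f h]

end four

end Pool.Agent.V11213.SlTwo
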