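import Pool.Agent.V11213.SlTwo.Present
import Pool.Agent.V11213.SlTwo.Graph

/-!
# Doubling the strands
-/

open Finset Polynomial

namespace Pool.Agent.V11213.SlTwo

variable {ι : Type*} [Fintype ι] [DecidableEq ι]
variable {A : Type*} [Ring A] [Algebra ℂ A]

omit [Fintype ι] in
lemma pos_append_mem {u v : List (ι × Bool)} {h : ι × Bool} (hu : h ∈ u) :
    pos (u ++ v) h = pos u h := List.idxOf_append_of_mem hu

omit [Fintype ι] in
lemma pos_append_notMem {u v : List (ι × Bool)} {h : ι × Bool} (hu : h ∉ u) :
    pos (u ++ v) h = u.length + pos v h := List.idxOf_append_of_notMem hu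

omit [Fintype ι] in
lemma pos_cons_self {v : List (ι × Bool)} {h : ι × Bool} : pos (h :: v) h = 0 :=
  List.idxOf_cons_self

omit [Fintype ι] in
lemma pos_cons_ne {v : List (ι × Bool)} {h k : ι × Bool} (hk : k ≠ h) :
    pos (k :: v) h = pos v h + 1 := List.idxOf_cons_ne _ hk

/-- The doubled strand at a half-edge; at the second endpoint the two strands are either parallel or
crossed. -/
def str (χ : ι → Bool) (h : ι × Bool) : List ((ι × Bool) × Bool) :=
  if h.2 = false then [((h.1, false), false), ((h.1, true), false)]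
  else if χ h.1 then [((h.1, false), true), ((h.1, true), true)]
  else [((h.1, true), true), ((h.1, false), true)]

/-- The doubled word. -/
def dbl (χ : ι → Bool) (w : List (ι × Bool)) : List ((ι × Bool) × Bool) := w.flatMap (str χ)

/-- The doubled tensor. -/
def x2 (x : Fin 2 → Bool → A) (m : Fin 2 × Fin 2 × Bool) (s : Bool) : A :=
  if s = false then x m.1 false * x m.2.1 false
  else if m.2.2 then x m.1 true * x m.2.1 true else x m.2.1 true * x m.1 true

omit [Algebra ℂ A] [Fintype ι] [DecidableEq ι] in
lemma ev_dbl (x : Fin 2 → Bool → A) (χ : ι → Bool) (w : List (ι × Bool)) (g : ι × Bool → Fin 2) :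
    ev x (dbl χ w) g = ev (x2 x) w (fun i => (g (i, false), g (i, true), χ i)) := by
  induction w with
  | nil => simp [dbl, ev]
  | cons h w ih =>
    have : dbl χ (h :: w) = str χ h ++ dbl χ w := rfl
    rw [this, ev_append, ev_cons, ih]
    congr 1
    unfold str x2
    obtain ⟨i, s⟩ := h
    cases s
    · simp [ev]
    · cases hχ : χ i <;> simp [ev]

/-- Colourings of the doubled strands. -/
def colEquiv : (ι → Fin 2 × Fin 2 × Bool) ≃ (ι → Bool) × (ι × Bool → Fin 2) where
  toFun f := (fun i => (f i).2.2, fun h => if h.2 then (f h.1).2.1 else (f h.1).1)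
  invFun p := fun i => (p.2 (i, false), p.2 (i, true), p.1 i)
  left_inv f := by funext i; simp
  right_inv p := by
    obtain ⟨χ, g⟩ := p
    simp only [Prod.mk.injEq, true_and]
    funext h
    obtain ⟨i, s⟩ := h
    cases s <;> simp

omit [Algebra ℂ A] in
lemma EE_dbl (x : Fin 2 → Bool → A) (w : List (ι × Bool)) :
    EE (x2 x) w = ∑ χ : ι → Bool, EE x (dbl χ w) := by
  unfold EE
  rw [← Equiv.sum_comp (colEquiv (ι := ι)).symm, Fintype.sum_prod_type]
  refine Finset.sum_congr rfl fun χ _ => Finset.sum_congr rfl fun g _ => ?_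
  rw [ev_dbl]
  rfl

omit [Fintype ι] [DecidableEq ι] in
lemma mem_str (χ : ι → Bool) (h : ι × Bool) (x : (ι × Bool) × Bool) :
    x ∈ str χ h ↔ x.1.1 = h.1 ∧ x.2 = h.2 := by
  obtain ⟨⟨i, a⟩, s⟩ := x
  obtain ⟨j, t⟩ := h
  unfold str
  cases t <;> cases s <;> cases a <;> cases hχ : χ j <;> simp

omit [Fintype ι] [DecidableEq ι] in
lemma length_str (χ : ι → Bool) (h : ι × Bool) : (str χ h).length = 2 := by
  unfold str
  split_ifs <;> rfl

/-- Offset inside a block. -/
def off (c a s : Bool) : ℕ := if s = false ∨ c = true then (if a then 1 else 0) else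
  (if a then 0 else 1)

omit [Fintype ι] in
lemma idx_str (χ : ι → Bool) (i : ι) (a s : Bool) :
    pos (str χ (i, s)) ((i, a), s) = off (χ i) a s := by
  unfold str off
  cases s <;> cases a <;> cases hχ : χ i <;>
    simp only [hχ, if_true, Bool.false_eq_true, Bool.true_eq_false, if_false, or_false, or_true,
      or_self, pos_cons_self, reduceCtorEq]
  all_goals
    rw [pos_cons_ne (by simp), pos_cons_self]

omit [Fintype ι] in
lemma pos_dbl (χ : ι → Bool) {w : List (ι × Bool)} (i : ι) (a s : Bool) (hw : (i, s) ∈ w) :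
    pos (dbl χ w) ((i, a), s) = 2 * pos w (i, s) + off (χ i) a s := by
  induction w with
  | nil => simp at hw
  | cons h w ih =>
    have e : dbl χ (h :: w) = str χ h ++ dbl χ w := rfl
    by_cases hh : h = (i, s)
    · subst hh
      rw [e, pos_append_mem ((mem_str χ (i, s) ((i, a), s)).2 ⟨rfl, rfl⟩),
        pos_cons_self, idx_str]
      simp
    · have h1 : ((i, a), s) ∉ str χ h := by
        intro h2
        rw [mem_str] at h2
        exact hh (Prod.ext h2.1.symm h2.2.symm)
      have h3 : (i, s) ∈ w := by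
        rcases List.mem_cons.1 hw with h4 | h4
        · exact absurd h4.symm hh
        · exact h4
      have h5 := ih h3
      rw [e, pos_append_notMem h1, pos_cons_ne hh, length_str, h5]
      omega

omit [Fintype ι] [DecidableEq ι] in
lemma mem_dbl (χ : ι → Bool) (w : List (ι × Bool)) (x : (ι × Bool) × Bool) :
    x ∈ dbl χ w ↔ (x.1.1, x.2) ∈ w := by
  unfold dbl
  rw [List.mem_flatMap]
  constructor
  · rintro ⟨h, hh, hx⟩
    rw [mem_str] at hx
    rw [hx.1, hx.2]
    exact hh
  · intro h
    exact ⟨_, h, (mem_str _ _ _).2 ⟨rfl, rfl⟩⟩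

omit [Fintype ι] [DecidableEq ι] in
lemma length_dbl (χ : ι → Bool) (w : List (ι × Bool)) : (dbl χ w).length = 2 * w.length := by
  induction w with
  | nil => simp [dbl]
  | cons h w ih =>
    have e : dbl χ (h :: w) = str χ h ++ dbl χ w := rfl
    rw [e, List.length_append, length_str, ih, List.length_cons]
    ring

omit [Fintype ι] in
lemma bal_dbl (χ : ι → Bool) {w : List (ι × Bool)} (hw : Full w) : Bal (dbl χ w) := by
  constructor
  · unfold dbl
    rw [List.nodup_flatMap]
    refine ⟨?_, ?_⟩
    · intro h _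
      unfold str
      split_ifs <;> simp
    · refine List.Pairwise.imp ?_ hw.nodup
      intro h h' hne x hx hx'
      rw [mem_str] at hx hx'
      apply hne
      exact Prod.ext (hx.1.symm.trans hx'.1) (hx.2.symm.trans hx'.2)
  · intro h _
    rw [mem_dbl]
    exact hw.all _

section weights

variable (χ : ι → Bool) {w : List (ι × Bool)}

omit [Fintype ι] in
lemma chi_dbl_ne (hw : Full w) (i j : ι) (hij : i ≠ j) (a b : Bool) :
    chi (pos (dbl χ w)) (i, a) (j, b) = chi (pos w) i j := by
  have h1 : ∀ s t, bet (pos (dbl χ w)) ((i, a), s) ((j, b), t) = bet (pos w) (i, s) (j, t) := by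
    intro s t
    unfold bet
    rw [pos_dbl χ i a s (hw.all _), pos_dbl χ j b t (hw.all _)]
    have h2 : pos w (i, s) ≠ pos w (j, t) := pos_ne (hw.all _) (by simp [hij])
    have h3 : off (χ i) a s ≤ 1 := by unfold off; split_ifs <;> omega
    have h4 : off (χ j) b t ≤ 1 := by unfold off; split_ifs <;> omega
    have h5 : (2 * pos w (j, t) + off (χ j) b t < 2 * pos w (i, s) + off (χ i) a s) ↔
      pos w (j, t) < pos w (i, s) := by omega
    simp only [h5]
  unfold chi
  rw [h1, h1, h1, h1]

omit [Fintype ι] in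
lemma chi_dbl_self (hw : Full w) (i : ι) :
    chi (pos (dbl χ w)) (i, false) (i, true) = if χ i then -1 else 1 := by
  have h0 := hw.ord i
  have b1 : bet (pos (dbl χ w)) ((i, false), false) ((i, true), false) = 1 := by
    unfold bet
    rw [pos_dbl χ i true false (hw.all _), pos_dbl χ i false false (hw.all _), if_neg]
    simp [off]
  have b2 : bet (pos (dbl χ w)) ((i, false), false) ((i, true), true) = 1 := by
    unfold bet
    rw [pos_dbl χ i true true (hw.all _), pos_dbl χ i false false (hw.all _), if_neg]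
    have : off (χ i) false false = 0 := by simp [off]
    omega
  have b3 : bet (pos (dbl χ w)) ((i, false), true) ((i, true), false) = -1 := by
    unfold bet
    rw [pos_dbl χ i true false (hw.all _), pos_dbl χ i false true (hw.all _), if_pos]
    have : off (χ i) true false = 1 := by simp [off]
    omega
  have b4 : bet (pos (dbl χ w)) ((i, false), true) ((i, true), true) = if χ i then 1 else -1 := by
    unfold bet
    rw [pos_dbl χ i true true (hw.all _), pos_dbl χ i false true (hw.all _)]
    cases hχ : χ i <;> simp [off]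
  unfold chi
  rw [b1, b2, b3, b4]
  cases hχ : χ i <;> simp

omit [Fintype ι] in
lemma ori_dbl (hw : Full w) (k : ι × Bool) : ori (pos (dbl χ w)) k = 1 := by
  obtain ⟨i, a⟩ := k
  have h0 := hw.ord i
  unfold ori bet
  rw [pos_dbl χ i a true (hw.all _), pos_dbl χ i a false (hw.all _), if_neg]
  have h3 : off (χ i) a false ≤ 1 := by unfold off; split_ifs <;> omega
  omega

/-- Diagonal factor for a given choice. -/
noncomputable def dd (σ : ι × Bool → ι × Bool → Bool) (i : ι) (c : Bool) : ℂ :=
  if σ (i, false) (i, true) then (if c then -1 else 1) else 1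

lemma wt_dbl (hw : Full w) (G : SimpleGraph ι)
    (hG : ∀ i j, i ≠ j → (G.Adj i j ↔ chi (pos w) i j = -1))
    (σ : ι × Bool → ι × Bool → Bool) (hσ : ∀ a b, σ a b = σ b a) :
    wt (pos (dbl χ w)) σ = (∏ i, dd σ i (χ i)) * ∏ i, ∏ j, gf G σ i j := by
  classical
  unfold wt
  simp only [ori_dbl χ hw, Finset.prod_const_one, one_mul]
  have hb := bal_dbl χ hw
  have h1 : ∀ i j, ∏ a : Bool, ∏ b : Bool, pf (pos (dbl χ w)) σ (i, a) (j, b) =
      (if j = i then dd σ i (χ i) else 1) * gf G σ i j := by
    intro i j
    by_cases hij : j = i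
    · subst hij
      simp only [Fintype.univ_bool, Finset.prod_insert, Finset.mem_singleton, Bool.true_eq_false,
        not_false_eq_true, Finset.prod_singleton, if_true]
      rw [R4.pf_one _ _ (j, true) (j, true) (by tauto), one_mul,
        R4.pf_one _ _ (j, false) (j, false) (by tauto), mul_one, mul_comm (pf _ _ _ _),
        pf_mul _ _ (j, false) (j, true) (by simp) (hσ _ _) (chi_sym hb _ _ (by simp)),
        chi_dbl_self χ hw]
      simp [dd, gf]
    · have hc : ∀ a b, pf (pos (dbl χ w)) σ (i, a) (j, b) =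
          if G.Adj i j then (if σ (i, a) (j, b) then Complex.I else 1) else 1 := by
        intro a b
        unfold pf
        rw [chi_dbl_ne χ hw i j (Ne.symm hij)]
        have h2 := hG i j (Ne.symm hij)
        have h3 : ((i, a) : ι × Bool) ≠ (j, b) := by simp [Ne.symm hij]
        by_cases h4 : G.Adj i j
        · simp [h4, h2.1 h4, h3]
        · have h5 : ¬ chi (pos w) i j = -1 := fun h => h4 (h2.2 h)
          simp [h4, h5]
      simp only [hc, Fintype.univ_bool, Finset.prod_insert, Finset.mem_singleton,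
        Bool.true_eq_false, not_false_eq_true, Finset.prod_singleton, if_neg hij, one_mul]
      unfold gf jj
      by_cases h4 : G.Adj i j
      · simp only [h4, if_true]; ring
      · simp [h4]
  calc ∏ k : ι × Bool, ∏ l : ι × Bool, pf (pos (dbl χ w)) σ k l
      = ∏ i, ∏ j, ∏ a : Bool, ∏ b : Bool, pf (pos (dbl χ w)) σ (i, a) (j, b) := by
        simp only [Fintype.prod_prod_type]
        refine Finset.prod_congr rfl fun i _ => ?_
        rw [Finset.prod_comm]
    _ = ∏ i, ∏ j, ((if j = i then dd σ i (χ i) else 1) * gf G σ i j) := by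
        refine Finset.prod_congr rfl fun i _ => Finset.prod_congr rfl fun j _ => h1 i j
    _ = (∏ i, dd σ i (χ i)) * ∏ i, ∏ j, gf G σ i j := by
        simp only [Finset.prod_mul_distrib]
        congr 1
        refine Finset.prod_congr rfl fun i _ => ?_
        rw [Finset.prod_ite_eq']
        simp

lemma sum_wt_dbl (hw : Full w) (G : SimpleGraph ι)
    (hG : ∀ i j, i ≠ j → (G.Adj i j ↔ chi (pos w) i j = -1))
    (σ : ι × Bool → ι × Bool → Bool) (hσ : ∀ a b, σ a b = σ b a) :
    ∑ χ : ι → Bool, wt (pos (dbl χ w)) σ = gw G σ := by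
  simp only [wt_dbl _ hw G hG σ hσ]
  rw [← Finset.sum_mul]
  unfold gw dg
  congr 1
  have h1 := Finset.prod_univ_sum (fun _ : ι => (univ : Finset Bool)) (fun i c => dd σ i c)
  rw [Fintype.piFinset_univ] at h1
  rw [← h1]
  refine Finset.prod_congr rfl fun i _ => ?_
  simp only [Fintype.univ_bool, Finset.sum_insert, Finset.mem_singleton, Bool.true_eq_false,
        not_false_eq_true, Finset.sum_singleton, dd]
  cases σ (i, false) (i, true) <;> simp
  norm_num

/-- The polynomial of a graph is the sum of the polynomials of the doubled words. -/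
theorem cpol_eq (hw : Full w) (G : SimpleGraph ι)
    (hG : ∀ i j, i ≠ j → (G.Adj i j ↔ chi (pos w) i j = -1)) :
    ∑ χ : ι → Bool, Q (dbl χ w) = cpol G := by
  apply poly_ext
  intro N
  rw [eval_finsetSum, cpol_eval]
  simp only [Q_eval]
  rw [Finset.sum_comm]
  refine Finset.sum_congr rfl fun f _ => ?_
  exact sum_wt_dbl hw G hG _ (pat_symm f)

end weights

/-- Evaluation of doubled words in the Weyl algebra. -/
theorem EE_dbl_eq {p q : A} (hpq : p * q = q * p + 1) {w : List (ι × Bool)} (hw : Full w)
    (hl : w.length = 2 * Fintype.card ι) (G : SimpleGraph ι)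
    (hG : ∀ i j, i ≠ j → (G.Adj i j ↔ chi (pos w) i j = -1)) :
    EE (x2 (Xg p q)) w = ((1/4) ^ (Fintype.card ι) * (cpol G).eval (-2)) • (1 : A) := by
  rw [EE_dbl, ← cpol_eq hw G hG, eval_finsetSum, Finset.mul_sum, Finset.sum_smul]
  refine Finset.sum_congr rfl fun χ _ => ?_
  rw [E_eq hpq (2 * Fintype.card ι) (dbl χ w) (bal_dbl χ hw) (by rw [length_dbl, hl])]
  congr 1
  rw [Fintype.card_prod, Fintype.card_bool, pow_mul', pow_mul]
  norm_num

end Pool.Agent.V11213.SlTwo
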