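import Pool.Agent.V11213.SlTwo.Words

open Finset Polynomial

namespace Pool.Agent.V11213.SlTwo

variable {ι : Type*} [Fintype ι] [DecidableEq ι]

/-- The polynomial attached to a word. -/
noncomputable def Q (w : List (ι × Bool)) : ℂ[X] := pol (ι := ι) (wt (pos w))

lemma Q_eval (w : List (ι × Bool)) (N : ℕ) :
    (Q w).eval (N : ℂ) = ∑ f : ι → Fin N, wt (pos w) (pat f) := pol_eval _ N

omit [Fintype ι] [DecidableEq ι] in
lemma pat_symm {N : ℕ} (f : ι → Fin N) (k l : ι) : pat f k l = pat f l k := by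
  simp [pat, eq_comm]

lemma Q_R4_poly {u r : List (ι × Bool)} {i j : ι} {s t : Bool} (hij : i ≠ j)
    (hw : Bal (u ++ (i, s) :: (j, t) :: r)) :
    (Q (u ++ (i, s) :: (j, t) :: r) - Q (u ++ (j, t) :: (i, s) :: r)) * X =
      C (-2 * R4.etaB t) * Q ((u ++ r).map (rep (j, !t) (i, s))) := by
  have H := r4_words hij hw
  apply poly_ext
  intro N
  simp only [eval_mul, eval_sub, eval_C, eval_X, Q_eval]
  rw [← Finset.sum_sub_distrib, mul_comm]
  have h1 := sum_update (ι := ι) (κ := Fin N) j (fun f =>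
    wt (pos (u ++ (i, s) :: (j, t) :: r)) (pat f) - wt (pos (u ++ (j, t) :: (i, s) :: r)) (pat f))
  rw [nsmul_eq_mul, Fintype.card_fin] at h1
  rw [← h1, Finset.mul_sum]
  refine Finset.sum_congr rfl fun f _ => ?_
  rw [Finset.sum_eq_single (f i)]
  · have hc : pat (Function.update f j (f i)) i j = true := by simp [pat, hij]
    have hc' : pat (Function.update f j (f i)) j i = true := by simp [pat, hij]
    rw [H.wt_of_eq _ hc hc', H.wt_join (pat (Function.update f j (f i))) (pat f)
      (pat_symm _) hc]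
    · ring
    · intro k hk1 hk2
      simp [pat, hij, Function.update_of_ne hk2]
    · intro k l hk hl
      simp [pat, Function.update_of_ne hk, Function.update_of_ne hl]
  · intro l _ hl
    rw [H.wt_of_ne _ (by simp [pat, hij, Ne.symm hl]) (by simp [pat, hij, hl]), sub_self]
  · intro h; exact absurd (Finset.mem_univ _) h

lemma Q_R4 {u r : List (ι × Bool)} {i j : ι} {s t : Bool} (hij : i ≠ j)
    (hw : Bal (u ++ (i, s) :: (j, t) :: r)) :
    (Q (u ++ (i, s) :: (j, t) :: r)).eval (-2) = (Q (u ++ (j, t) :: (i, s) :: r)).eval (-2) +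
      R4.etaB t * (Q ((u ++ r).map (rep (j, !t) (i, s)))).eval (-2) := by
  have h := congrArg (eval (-2)) (Q_R4_poly hij hw)
  simp only [eval_mul, eval_sub, eval_C, eval_X] at h
  linear_combination (-1/2) * h

section R3

variable {u v : List (ι × Bool)} {i : ι} {s : Bool}

omit [Fintype ι] [DecidableEq ι] in
lemma bal_R3 (hw : Bal (u ++ (i, s) :: (i, !s) :: v)) :
    (∀ b, (i, b) ∉ u ++ v) ∧ Bal (u ++ v) := by
  have h1 : (u ++ (i, s) :: (i, !s) :: v).Perm ((i, s) :: (i, !s) :: (u ++ v)) := by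
    refine List.perm_middle.trans ?_
    exact List.Perm.cons _ List.perm_middle
  have h2 := h1.nodup_iff.1 hw.1
  rw [List.nodup_cons, List.nodup_cons] at h2
  obtain ⟨h3, h4, h5⟩ := h2
  have h6 : (i, s) ∉ u ++ v := fun h => h3 (List.mem_cons_of_mem _ h)
  have h7 : ∀ b, (i, b) ∉ u ++ v := by
    intro b
    by_cases hb : b = s
    · rw [hb]; exact h6
    · have : b = !s := by cases b <;> cases s <;> simp_all
      rw [this]; exact h4
  refine ⟨h7, h5, fun h hh => ?_⟩
  have h8 := h1.mem_iff.1 (hw.2 h (h1.mem_iff.2 (by simp [hh])))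
  have h9 : h.1 ≠ i := by
    intro h'
    apply h7 h.2
    rw [← h']
    exact hh
  simpa [h9] using h8

omit [Fintype ι] in
lemma wt_R3 [Fintype ι] (hw : Bal (u ++ (i, s) :: (i, !s) :: v)) (σ : ι → ι → Bool) :
    wt (pos (u ++ (i, s) :: (i, !s) :: v)) σ = -R4.etaB s * wt (pos (u ++ v)) σ := by
  obtain ⟨habs, hb⟩ := bal_R3 hw
  have hu : ∀ b, (i, b) ∉ u := fun b h => habs b (by simp [h])
  have px : pos (u ++ (i, s) :: (i, !s) :: v) (i, s) = u.length := by
    unfold pos; rw [List.idxOf_append_of_notMem (hu _), List.idxOf_cons_self]; rfl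
  have py : pos (u ++ (i, s) :: (i, !s) :: v) (i, !s) = u.length + 1 := by
    unfold pos
    rw [List.idxOf_append_of_notMem (hu _), List.idxOf_cons_ne _ (by simp),
      List.idxOf_cons_self]
  have p1 : ∀ h : ι × Bool, h.1 ≠ i →
      (pos (u ++ (i, s) :: (i, !s) :: v) h = pos (u ++ v) h ∧ pos (u ++ v) h < u.length) ∨
      (pos (u ++ (i, s) :: (i, !s) :: v) h = pos (u ++ v) h + 2 ∧ u.length ≤ pos (u ++ v) h) := by
    intro h h1
    unfold pos
    rcases idx_ins h (i, s) (i, !s) u v (fun h' => h1 (by rw [h'])) (fun h' => h1 (by rw [h']))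
      with h3 | h3 <;> omega
  have b1 : ∀ h h' : ι × Bool, h.1 ≠ i → h'.1 ≠ i →
      bet (pos (u ++ (i, s) :: (i, !s) :: v)) h h' = bet (pos (u ++ v)) h h' := by
    intro h h' h1 h2
    apply bet_congr
    have := p1 h h1
    have := p1 h' h2
    omega
  have bx : ∀ (b : Bool) (h : ι × Bool), h.1 ≠ i → bet (pos (u ++ (i, s) :: (i, !s) :: v)) (i, b) h
      = bet (pos (u ++ (i, s) :: (i, !s) :: v)) (i, s) h := by
    intro b h h1
    by_cases hb : b = s
    · rw [hb]
    · have : b = !s := by cases b <;> cases s <;> simp_all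
      rw [this]
      apply bet_congr
      have := p1 h h1
      omega
  have by' : ∀ (b : Bool) (h : ι × Bool), h.1 ≠ i → bet (pos (u ++ (i, s) :: (i, !s) :: v)) h (i, b)
      = bet (pos (u ++ (i, s) :: (i, !s) :: v)) h (i, s) := by
    intro b h h1
    by_cases hb : b = s
    · rw [hb]
    · have : b = !s := by cases b <;> cases s <;> simp_all
      rw [this]
      apply bet_congr
      have := p1 h h1
      omega
  have c1 : ∀ k, k ≠ i → chi (pos (u ++ (i, s) :: (i, !s) :: v)) i k = 1 := by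
    intro k hk
    unfold chi
    rw [bx false (k, false) hk, bx false (k, true) hk, bx true (k, false) hk, bx true (k, true) hk]
    have h1 := bet_sq (pos (u ++ (i, s) :: (i, !s) :: v)) (i, s) (k, false)
    have h2 := bet_sq (pos (u ++ (i, s) :: (i, !s) :: v)) (i, s) (k, true)
    linear_combination (bet (pos (u ++ (i, s) :: (i, !s) :: v)) (i, s) (k, true) *
      bet (pos (u ++ (i, s) :: (i, !s) :: v)) (i, s) (k, true)) * h1 + h2
  have c2 : ∀ k, k ≠ i → chi (pos (u ++ (i, s) :: (i, !s) :: v)) k i = 1 := by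
    intro k hk
    rw [chi_sym hw k i hk]
    exact c1 k hk
  have pfe : ∀ k l, pf (pos (u ++ (i, s) :: (i, !s) :: v)) σ k l = pf (pos (u ++ v)) σ k l := by
    intro k l
    by_cases hkl : k = l
    · subst hkl
      rw [R4.pf_one _ _ _ _ (by tauto), R4.pf_one _ _ _ _ (by tauto)]
    by_cases hk : k = i
    · subst hk
      rw [R4.pf_one _ _ _ _ (fun _ => c1 l (Ne.symm hkl)),
        R4.pf_one _ _ _ _ (fun _ => (chi_absent _ k habs l).1)]
    by_cases hl : l = i
    · subst hl
      rw [R4.pf_one _ _ _ _ (fun _ => c2 k hkl),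
        R4.pf_one _ _ _ _ (fun _ => (chi_absent _ l habs k).2)]
    unfold pf chi
    rw [b1, b1, b1, b1] <;> simpa
  have orie : ∏ k, ori (pos (u ++ (i, s) :: (i, !s) :: v)) k
      = -R4.etaB s * ∏ k, ori (pos (u ++ v)) k := by
    rw [← Finset.mul_prod_erase _ _ (Finset.mem_univ i),
      ← Finset.mul_prod_erase _ (ori (pos (u ++ v))) (Finset.mem_univ i),
      ori_absent _ i habs, one_mul]
    congr 1
    · unfold ori bet R4.etaB
      cases s
      · simp only [Bool.not_false] at px py ⊢
        rw [px, py, if_neg (by omega)]; simp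
      · simp only [Bool.not_true] at px py ⊢
        rw [px, py, if_pos (by omega)]; simp
    · refine Finset.prod_congr rfl fun k hk => ?_
      have hk' : k ≠ i := (Finset.mem_erase.1 hk).1
      unfold ori
      exact b1 _ _ hk' hk'
  unfold wt
  simp only [pfe, orie]
  ring

lemma Q_R3 (hw : Bal (u ++ (i, s) :: (i, !s) :: v)) :
    (Q (u ++ (i, s) :: (i, !s) :: v)) = C (-R4.etaB s) * Q (u ++ v) := by
  apply poly_ext
  intro N
  simp only [eval_mul, eval_C, Q_eval]
  rw [Finset.mul_sum]
  exact Finset.sum_congr rfl fun f _ => wt_R3 hw _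

end R3

lemma Q_nil : (Q ([] : List (ι × Bool))) = X ^ (Fintype.card ι) := by
  apply poly_ext
  intro N
  rw [Q_eval]
  have h1 : ∀ σ : ι → ι → Bool, wt (pos ([] : List (ι × Bool))) σ = 1 := by
    intro σ
    unfold wt
    rw [Finset.prod_eq_one, Finset.prod_eq_one, one_mul]
    · intro k _
      exact Finset.prod_eq_one fun l _ => R4.pf_one _ _ _ _ fun _ =>
        (chi_absent [] k (by simp) l).1
    · intro k _
      exact ori_absent [] k (by simp)
  simp [h1]

end Pool.Agent.V11213.SlTwo
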