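import Pool.Agent.V11213.SlTwo.Central

/-!
# The orthonormal frame of `sl(2)` and the values of the weight system
-/

open Finset Polynomial

namespace Pool.Agent.V11213.SlTwo

attribute [local instance 100] LieRing.ofAssociativeRing

section frame

variable {A : Type*} [Ring A] [Algebra ℂ A]

lemma frame_of_brackets (e : Fin 3 → A) (μ : ℂ) (hμ : μ * μ = -1/2)
    (b01 : e 0 * e 1 - e 1 * e 0 = μ • e 2) (b12 : e 1 * e 2 - e 2 * e 1 = μ • e 0)
    (b20 : e 2 * e 0 - e 0 * e 2 = μ • e 1) : Frame e := by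
  have r10 : e 1 * e 0 = e 0 * e 1 - μ • e 2 := by rw [← b01]; abel
  have r21 : e 2 * e 1 = e 1 * e 2 - μ • e 0 := by rw [← b12]; abel
  have r20 : e 2 * e 0 = e 0 * e 2 + μ • e 1 := by rw [← b20]; abel
  have s10 : ∀ z, e 1 * (e 0 * z) = e 0 * (e 1 * z) - μ • (e 2 * z) := by
    intro z; rw [← mul_assoc, r10, sub_mul, smul_mul_assoc, mul_assoc]
  have s21 : ∀ z, e 2 * (e 1 * z) = e 1 * (e 2 * z) - μ • (e 0 * z) := by
    intro z; rw [← mul_assoc, r21, sub_mul, smul_mul_assoc, mul_assoc]
  have s20 : ∀ z, e 2 * (e 0 * z) = e 0 * (e 2 * z) + μ • (e 1 * z) := by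
    intro z; rw [← mul_assoc, r20, add_mul, smul_mul_assoc, mul_assoc]
  have hμ' : ∀ z : A, μ • (μ • z) = (-1/2 : ℂ) • z := by
    intro z; rw [smul_smul, hμ]
  constructor
  · intro a b c
    fin_cases a <;> fin_cases b <;> fin_cases c <;>
      simp only [Fin.zero_eta, Fin.mk_one, Fin.reduceFinMk, Fin.isValue, Fin.reduceEq, if_true,
        if_false, mul_sub, sub_mul, mul_add, add_mul, mul_assoc, r10, r21, r20, s10, s21, s20,
        smul_sub, smul_add, mul_smul_comm, smul_mul_assoc, hμ', sub_self, smul_zero, sub_zero,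
        zero_sub, zero_mul, mul_zero] <;>
      module
  · intro a
    simp only [Fin.sum_univ_three]
    fin_cases a <;>
      simp only [Fin.zero_eta, Fin.mk_one, Fin.reduceFinMk, Fin.isValue, mul_sub, sub_mul, mul_add,
        add_mul, mul_assoc, r10, r21, r20, s10, s21, s20,
        smul_sub, smul_add, mul_smul_comm, smul_mul_assoc, hμ'] <;>
      module
  · intro a
    simp only [Fin.sum_univ_three]
    fin_cases a <;>
      simp only [Fin.zero_eta, Fin.mk_one, Fin.reduceFinMk, Fin.isValue, mul_sub, sub_mul, mul_add,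
        add_mul, mul_assoc, r10, r21, r20, s10, s21, s20,
        smul_sub, smul_add, mul_smul_comm, smul_mul_assoc, hμ'] <;>
      module

/-- The images of the orthonormal basis satisfy the frame relations. -/
lemma frame_of_rep (φ : sl2 →ₗ[ℂ] A) (h1 : φ slE * φ slF - φ slF * φ slE = φ slH)
    (h2 : φ slH * φ slE - φ slE * φ slH = (2 : ℂ) • φ slE)
    (h3 : φ slH * φ slF - φ slF * φ slH = (-2 : ℂ) • φ slF) :
    Frame (fun k => φ (orthoBasis k)) ∧ ∑ k, φ (orthoBasis k) * φ (orthoBasis k) =
      (1/4 : ℂ) • (φ slE * φ slF + φ slF * φ slE + (1/2 : ℂ) • (φ slH * φ slH)) := by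
  have h := sqrt8_sq
  set c : ℂ := ((1 / Real.sqrt 8 : ℝ) : ℂ) with hc
  have e0 : φ (orthoBasis 0) = c • (φ slE + φ slF) := by
    unfold orthoBasis
    rw [if_pos rfl, map_smul, map_add]
  have e1 : φ (orthoBasis 1) = c • (Complex.I • (φ slE - φ slF)) := by
    unfold orthoBasis
    rw [if_neg (by decide), if_pos rfl, map_smul, map_smul, map_sub]
  have e2 : φ (orthoBasis 2) = c • (φ slH) := by
    unfold orthoBasis
    rw [if_neg (by decide), if_neg (by decide), map_smul]
  have r1 : φ slE * φ slF = φ slF * φ slE + φ slH := by rw [← h1]; abel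
  have r2 : φ slH * φ slE = φ slE * φ slH + (2 : ℂ) • φ slE := by rw [← h2]; abel
  have r3 : φ slH * φ slF = φ slF * φ slH + (-2 : ℂ) • φ slF := by rw [← h3]; abel
  have hI : Complex.I * Complex.I = -1 := Complex.I_mul_I
  have hcc : ∀ (a b : A), (c • a) * (c • b) = (1/8 : ℂ) • (a * b) := by
    intro a b
    rw [smul_mul_assoc, mul_smul_comm, smul_smul, h]
  constructor
  · apply frame_of_brackets _ (-2 * Complex.I * c)
    · linear_combination (4 * Complex.I * Complex.I) * h + (1/2) * hI
    · simp only [e0, e1, e2, hcc, ← smul_sub]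
      rw [smul_smul, show -2 * Complex.I * c * c = (-2 * Complex.I) * (1/8) by
        linear_combination (-2 * Complex.I) * h]
      simp only [smul_mul_assoc, mul_smul_comm, mul_add, add_mul, mul_sub, sub_mul, r1, r2, r3,
        smul_add, smul_sub, smul_smul]
      module
    · simp only [e0, e1, e2, hcc, ← smul_sub]
      rw [smul_smul, show -2 * Complex.I * c * c = (-2 * Complex.I) * (1/8) by
        linear_combination (-2 * Complex.I) * h]
      simp only [smul_mul_assoc, mul_smul_comm, mul_add, add_mul, mul_sub, sub_mul, r1, r2, r3,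
        smul_add, smul_sub, smul_smul]
      module
    · simp only [e0, e1, e2, hcc, ← smul_sub]
      rw [smul_smul, smul_smul, show -2 * Complex.I * c * c * Complex.I = 1/4 by
        linear_combination (-2 * Complex.I * Complex.I) * h - (1/4) * hI]
      simp only [smul_mul_assoc, mul_smul_comm, mul_add, add_mul, mul_sub, sub_mul, r1, r2, r3,
        smul_add, smul_sub, smul_smul]
      module
  · rw [Fin.sum_univ_three, e0, e1, e2, hcc, hcc, hcc]
    rw [show (Complex.I • (φ slE - φ slF)) * (Complex.I • (φ slE - φ slF)) =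
      (-1 : ℂ) • ((φ slE - φ slF) * (φ slE - φ slF)) by
        rw [smul_mul_assoc, mul_smul_comm, smul_smul, hI]]
    simp only [mul_add, add_mul, mul_sub, sub_mul, smul_add, smul_sub]
    module

end frame

section values

lemma i_lie (x y : sl2) : UniversalEnvelopingAlgebra.ι ℂ x * UniversalEnvelopingAlgebra.ι ℂ y -
    UniversalEnvelopingAlgebra.ι ℂ y * UniversalEnvelopingAlgebra.ι ℂ x =
    UniversalEnvelopingAlgebra.ι ℂ ⁅x, y⁆ := by
  rw [LieHom.map_lie, LieRing.of_associative_ring_bracket]

lemma lie_EF : ⁅slE, slF⁆ = slH := by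
  apply Subtype.ext
  rw [LieAlgebra.SpecialLinear.sl_bracket]
  change slE.1 * slF.1 - slF.1 * slE.1 = slH.1
  simp only [slE, slF, slH]
  ext i j
  fin_cases i <;> fin_cases j <;> simp

lemma lie_HE : ⁅slH, slE⁆ = (2 : ℂ) • slE := by
  apply Subtype.ext
  rw [LieAlgebra.SpecialLinear.sl_bracket]
  change slH.1 * slE.1 - slE.1 * slH.1 = (2 : ℂ) • slE.1
  simp only [slE, slH]
  ext i j
  fin_cases i <;> fin_cases j <;> simp
  norm_num

lemma lie_HF : ⁅slH, slF⁆ = (-2 : ℂ) • slF := by
  apply Subtype.ext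
  rw [LieAlgebra.SpecialLinear.sl_bracket]
  change slH.1 * slF.1 - slF.1 * slH.1 = (-2 : ℂ) • slF.1
  simp only [slF, slH]
  ext i j
  fin_cases i <;> fin_cases j <;> simp
  norm_num

lemma frame_U : Frame (fun k => UniversalEnvelopingAlgebra.ι ℂ (orthoBasis k)) ∧
    ∑ k, UniversalEnvelopingAlgebra.ι ℂ (orthoBasis k) *
      UniversalEnvelopingAlgebra.ι ℂ (orthoBasis k) = casimir := by
  have := frame_of_rep ((UniversalEnvelopingAlgebra.ι ℂ : sl2 →ₗ⁅ℂ⁆ Usl2) : sl2 →ₗ[ℂ] Usl2)
    (by simpa [lie_EF] using i_lie slE slF)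
    (by
      have := i_lie slH slE
      rw [lie_HE, map_smul] at this
      exact this)
    (by
      have := i_lie slH slF
      rw [lie_HF, map_smul] at this
      exact this)
  exact this

lemma count_ofFn {m n : ℕ} (g : Fin m → Fin n) (i : Fin n) :
    (List.ofFn g).count i = (univ.filter fun p => g p = i).card := by
  rw [List.ofFn_eq_map, List.count, List.countP_map, List.countP_eq_length_filter]
  have : (univ : Finset (Fin m)) = ⟨List.finRange m, List.nodup_finRange m⟩ := rfl
  rw [this]
  rw [Finset.card_def, Finset.filter_val]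
  simp only [Multiset.filter_coe, Multiset.coe_card]
  congr 1

/-- The weight system takes values in the polynomials in the Casimir element. -/
theorem exists_poly {n : ℕ} (D : ChordDiagram n) :
    ∃ P : ℂ[X], aeval casimir P = weightSl2 D := by
  have h1 := TT_mem (ι := Fin n) frame_U.1 (aeval (R := ℂ) casimir).range
    (by
      rw [frame_U.2]
      exact ⟨X, by simp⟩) n (List.ofFn D.chord) (by simp) (by
      intro i
      right
      rw [count_ofFn, D.two])
  obtain ⟨P, hP⟩ := h1
  refine ⟨P, ?_⟩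
  change aeval casimir P = _ at hP
  rw [hP]
  unfold TT evl weightSl2
  refine Finset.sum_congr rfl fun f _ => ?_
  rw [List.map_ofFn]
  rfl

end values

end Pool.Agent.V11213.SlTwo
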