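import Mathlib

open Finset Polynomial

namespace Pool.Agent.V11213.SlTwo

variable {ι : Type*} [Fintype ι] [DecidableEq ι]

/-- The equality pattern of a colouring. -/
def pat {N : ℕ} (f : ι → Fin N) : ι → ι → Bool := fun a b => decide (f a = f b)

omit [Fintype ι] [DecidableEq ι] in
lemma pat_eq_iff {N M : ℕ} (f : ι → Fin N) (g : ι → Fin M) :
    pat f = pat g ↔ ∀ a b, f a = f b ↔ g a = g b := by
  constructor
  · intro h a b
    have := congrFun (congrFun h a) b
    simpa [pat] using this
  · intro h
    funext a b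
    simp [pat, h a b]

lemma card_pat (π : ι → ι → Bool) : ∃ P : ℂ[X], ∀ N : ℕ,
    P.eval (N : ℂ) = ((univ.filter fun f : ι → Fin N => pat f = π).card : ℂ) := by
  classical
  by_cases h : ∃ N₀ : ℕ, ∃ f₀ : ι → Fin N₀, pat f₀ = π
  · obtain ⟨N₀, f₀, rfl⟩ := h
    refine ⟨descPochhammer ℂ (Fintype.card (Set.range f₀)), fun N => ?_⟩
    rw [descPochhammer_eval_eq_descFactorial]
    norm_cast
    have h1 : (univ.filter fun f : ι → Fin N => pat f = pat f₀).card
        = Fintype.card {f : ι → Fin N // pat f = pat f₀} := by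
      rw [Fintype.card_subtype]
    have h0 : N.descFactorial (Fintype.card (Set.range f₀))
        = Fintype.card (Set.range f₀ ↪ Fin N) := by
      rw [Fintype.card_embedding_eq, Fintype.card_fin]
    rw [h1, h0]
    let Φ : (Set.range f₀ ↪ Fin N) → {f : ι → Fin N // pat f = pat f₀} := fun g =>
      ⟨fun a => g ⟨f₀ a, Set.mem_range_self a⟩, by
        rw [pat_eq_iff]
        intro a b
        rw [g.injective.eq_iff, Subtype.mk.injEq]⟩
    refine (Fintype.card_of_bijective (f := Φ) ⟨?_, ?_⟩)
    · intro g g' hgg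
      ext ⟨r, hr⟩
      obtain ⟨a, rfl⟩ := hr
      have := congrFun (congrArg Subtype.val hgg) a
      simp only [Φ] at this
      rw [this]
    · rintro ⟨f, hf⟩
      rw [pat_eq_iff] at hf
      have hc : ∀ r : Set.range f₀, ∃ a, f₀ a = r := fun r => r.2
      choose c hc using hc
      refine ⟨⟨fun r => f (c r), ?_⟩, ?_⟩
      · intro r r' hrr
        have h2 := (hf _ _).1 hrr
        rw [hc, hc] at h2
        exact Subtype.ext h2
      · apply Subtype.ext
        funext a
        change f (c ⟨f₀ a, Set.mem_range_self a⟩) = f a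
        rw [hf, hc]
  · refine ⟨0, fun N => ?_⟩
    have : (univ.filter fun f : ι → Fin N => pat f = π) = ∅ := by
      rw [Finset.filter_eq_empty_iff]
      intro f _ hf
      exact h ⟨N, f, hf⟩
    rw [this]; simp

/-- A sum over `N`-colourings of a weight depending only on the equality pattern is a polynomial
in `N`. -/
lemma poly_exists (W : (ι → ι → Bool) → ℂ) : ∃ P : ℂ[X], ∀ N : ℕ,
    P.eval (N : ℂ) = ∑ f : ι → Fin N, W (pat f) := by
  classical
  choose P hP using (card_pat (ι := ι))
  refine ⟨∑ π, C (W π) * P π, fun N => ?_⟩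
  rw [eval_finsetSum]
  simp only [eval_mul, eval_C, hP]
  rw [← Finset.sum_fiberwise (s := univ) (g := fun f : ι → Fin N => pat f)]
  refine Finset.sum_congr rfl fun π _ => ?_
  rw [Finset.sum_congr rfl (g := fun _ => W π)]
  · rw [Finset.sum_const, nsmul_eq_mul, mul_comm]
  · intro f hf
    rw [(Finset.mem_filter.1 hf).2]

/-- The polynomial interpolating the colour sums. -/
noncomputable def pol (W : (ι → ι → Bool) → ℂ) : ℂ[X] := (poly_exists W).choose

lemma pol_eval (W : (ι → ι → Bool) → ℂ) (N : ℕ) :
    (pol W).eval (N : ℂ) = ∑ f : ι → Fin N, W (pat f) := (poly_exists W).choose_spec N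

lemma poly_ext {p q : ℂ[X]} (h : ∀ N : ℕ, p.eval (N : ℂ) = q.eval (N : ℂ)) : p = q := by
  apply Polynomial.eq_of_infinite_eval_eq
  refine Set.Infinite.mono (s := Set.range (fun N : ℕ => (N : ℂ))) ?_ ?_
  · rintro _ ⟨N, rfl⟩; exact h N
  · exact Set.infinite_range_of_injective Nat.cast_injective

omit [Fintype ι] in
/-- Summing over all updates of one value counts everything `card κ` times. -/
lemma sum_update {κ M : Type*} [Fintype ι] [Fintype κ] [AddCommMonoid M] (j : ι) (F : (ι → κ) → M) :
    ∑ f : ι → κ, ∑ l : κ, F (Function.update f j l) = Fintype.card κ • ∑ f : ι → κ, F f := by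
  classical
  have h : Function.Involutive (fun x : (ι → κ) × κ => (Function.update x.1 j x.2, x.1 j)) := by
    rintro ⟨f, l⟩; simp
  have h2 := (Equiv.sum_comp (h.toPerm) (fun x : (ι → κ) × κ => F x.1))
  simp only [Function.Involutive.coe_toPerm] at h2
  rw [Fintype.sum_prod_type, Fintype.sum_prod_type] at h2
  simp only at h2
  rw [h2]
  simp [Finset.smul_sum]

/-- Splitting a double product according to two distinguished indices. -/
lemma prod_split {M : Type*} [CommMonoid M] (i j : ι) (hij : i ≠ j) (G : ι → ι → M) :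
    ∏ k, ∏ l, G k l = (G i i * G i j * G j i * G j j) *
      (∏ k ∈ (univ.erase i).erase j, (G i k * G k i * (G j k * G k j))) *
      ∏ k ∈ (univ.erase i).erase j, ∏ l ∈ (univ.erase i).erase j, G k l := by
  have hj : j ∈ (univ : Finset ι).erase i := by simp [hij.symm]
  have hu : ∀ F : ι → M, ∏ k, F k = F i * (F j * ∏ k ∈ (univ.erase i).erase j, F k) := by
    intro F
    rw [Finset.mul_prod_erase _ F hj, Finset.mul_prod_erase _ F (Finset.mem_univ i)]
  simp only [hu, Finset.prod_mul_distrib]
  simp only [mul_assoc, mul_comm, mul_left_comm]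

end Pool.Agent.V11213.SlTwo
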