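import Pool.Agent.V11213.SlTwo.Weyl

/-!
# Change of presentation of the tensors sitting on the chords, and doubling of the strands
-/

open Finset Polynomial

namespace Pool.Agent.V11213.SlTwo

variable {ι : Type*} [Fintype ι] [DecidableEq ι]
variable {A : Type*} [Ring A] [Algebra ℂ A]

/-- Words in which all half-edges occur exactly once and `(i,false)` comes before `(i,true)`. -/
structure Full (w : List (ι × Bool)) : Prop where
  nodup : w.Nodup
  all : ∀ h, h ∈ w
  ord : ∀ i, pos w (i, false) < pos w (i, true)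

omit [Fintype ι] in
lemma Full.split {w : List (ι × Bool)} (hw : Full w) (i : ι) :
    ∃ B Y D, w = B ++ (i, false) :: (Y ++ (i, true) :: D) ∧
      (∀ b, (i, b) ∉ B) ∧ (∀ b, (i, b) ∉ Y) ∧ (∀ b, (i, b) ∉ D) := by
  obtain ⟨B, R, rfl⟩ := List.append_of_mem (hw.all (i, false))
  have hn := hw.nodup
  have hn1 := List.nodup_middle.1 hn
  have hn2 : (i, false) ∉ B ++ R := (List.nodup_cons.1 hn1).1
  have hR : (i, true) ∈ R := by
    have h1 := hw.all (i, true)
    rw [List.mem_append, List.mem_cons] at h1
    rcases h1 with h1 | h1 | h1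
    · exfalso
      have h2 := hw.ord i
      have e1 : pos (B ++ (i, false) :: R) (i, true) = B.idxOf (i, true) :=
        List.idxOf_append_of_mem h1
      have e2 : pos (B ++ (i, false) :: R) (i, false) = B.length + 0 := by
        unfold pos
        rw [List.idxOf_append_of_notMem (fun h => hn2 (by simp [h])), List.idxOf_cons_self]
      have e3 := List.idxOf_lt_length_of_mem h1
      omega
    · simp at h1
    · exact h1
  obtain ⟨Y, D, rfl⟩ := List.append_of_mem hR
  have h3 : (i, true) ∉ B ++ (i, false) :: (Y ++ D) := by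
    have : (B ++ (i, false) :: (Y ++ (i, true) :: D)).Perm
        ((i, true) :: (B ++ (i, false) :: (Y ++ D))) := by
      have := @List.perm_middle _ (i, true) (B ++ (i, false) :: Y) D
      simpa using this
    exact (List.nodup_cons.1 (this.nodup_iff.1 hn)).1
  refine ⟨B, Y, D, rfl, ?_, ?_, ?_⟩ <;> intro b hb <;> cases b
  · exact hn2 (by simp [hb])
  · exact h3 (by simp [hb])
  · exact hn2 (by simp [hb])
  · exact h3 (by simp [hb])
  · exact hn2 (by simp [hb])
  · exact h3 (by simp [hb])

/-- Value of a word where the tensors may depend on the strand. -/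
def evz {κ : Type*} (z : ι → κ → Bool → A) (w : List (ι × Bool)) (f : ι → κ) : A :=
  (w.map fun h => z h.1 (f h.1) h.2).prod

/-- Sum over colourings. -/
def EEz {κ : Type*} [Fintype κ] (z : ι → κ → Bool → A) (w : List (ι × Bool)) : A :=
  ∑ f : ι → κ, evz z w f

omit [Algebra ℂ A] [Fintype ι] [DecidableEq ι] in
lemma evz_append {κ : Type*} (x : ι → κ → Bool → A) (u v : List (ι × Bool)) (f : ι → κ) :
    evz x (u ++ v) f = evz x u f * evz x v f := by
  simp [evz]

omit [Algebra ℂ A] [Fintype ι] [DecidableEq ι] in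
lemma evz_cons {κ : Type*} (x : ι → κ → Bool → A) (h : ι × Bool) (v : List (ι × Bool))
    (f : ι → κ) : evz x (h :: v) f = x h.1 (f h.1) h.2 * evz x v f := by
  simp [evz]

omit [Algebra ℂ A] [Fintype ι] in
lemma evz_update {κ : Type*} (x : ι → κ → Bool → A) (w : List (ι × Bool)) (f : ι → κ) (j : ι)
    (l : κ) (hw : ∀ b, (j, b) ∉ w) : evz x w (Function.update f j l) = evz x w f := by
  unfold evz
  congr 1
  apply List.map_congr_left
  intro h hh
  have : h.1 ≠ j := by
    rintro rfl
    exact hw h.2 hh
  rw [Function.update_of_ne this]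

omit [Algebra ℂ A] [Fintype ι] [DecidableEq ι] in
lemma evz_congr {κ : Type*} (x x' : ι → κ → Bool → A) (w : List (ι × Bool)) (f : ι → κ) (j : ι)
    (hx : ∀ k, k ≠ j → x k = x' k) (hw : ∀ b, (j, b) ∉ w) : evz x w f = evz x' w f := by
  unfold evz
  congr 1
  apply List.map_congr_left
  intro h hh
  have : h.1 ≠ j := by
    rintro rfl
    exact hw h.2 hh
  rw [hx _ this]

lemma EEz_change {κ : Type*} [Fintype κ] [Nonempty κ] (i : ι) (z z' : ι → κ → Bool → A)
    (hz : ∀ k, k ≠ i → z k = z' k) (c : ℂ)
    (h : ∀ Y : A, ∑ m, z i m false * Y * z i m true = c • ∑ m, z' i m false * Y * z' i m true)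
    {w : List (ι × Bool)} (hw : Full w) : EEz z w = c • EEz z' w := by
  obtain ⟨B, Y, D, rfl, hB, hY, hD⟩ := hw.split i
  have hexp : ∀ (x : ι → κ → Bool → A), (Fintype.card κ : ℂ) •
      EEz x (B ++ (i, false) :: (Y ++ (i, true) :: D)) =
      ∑ f : ι → κ, evz x B f * (∑ m, x i m false * evz x Y f * x i m true) * evz x D f := by
    intro x
    rw [Nat.cast_smul_eq_nsmul, EEz, ← sum_update i]
    refine Finset.sum_congr rfl fun f _ => ?_
    rw [Finset.mul_sum, Finset.sum_mul]
    refine Finset.sum_congr rfl fun m _ => ?_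
    rw [evz_append, evz_cons, evz_append, evz_cons, evz_update _ _ _ _ _ hB,
      evz_update _ _ _ _ _ hY, evz_update _ _ _ _ _ hD]
    simp only [Function.update_self, mul_assoc]
  have hc : (Fintype.card κ : ℂ) ≠ 0 := by
    exact_mod_cast Fintype.card_ne_zero
  have key : (Fintype.card κ : ℂ) • EEz z (B ++ (i, false) :: (Y ++ (i, true) :: D)) =
      (Fintype.card κ : ℂ) • (c • EEz z' (B ++ (i, false) :: (Y ++ (i, true) :: D))) := by
    rw [smul_comm, hexp, hexp, Finset.smul_sum]
    refine Finset.sum_congr rfl fun f _ => ?_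
    rw [h, evz_congr z z' B f i hz hB, evz_congr z z' Y f i hz hY, evz_congr z z' D f i hz hD,
      mul_smul_comm, smul_mul_assoc]
  have := congrArg (fun t => (Fintype.card κ : ℂ)⁻¹ • t) key
  simpa [smul_smul, inv_mul_cancel₀ hc] using this

lemma EEz_all {κ : Type*} [Fintype κ] [Nonempty κ] (z z' : κ → Bool → A) (c : ℂ)
    (h : ∀ Y : A, ∑ m, z m false * Y * z m true = c • ∑ m, z' m false * Y * z' m true)
    {w : List (ι × Bool)} (hw : Full w) :
    EEz (fun _ => z) w = c ^ (Fintype.card ι) • EEz (fun _ => z') w := by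
  classical
  have key : ∀ S : Finset ι, EEz (fun _ => z) w = c ^ S.card •
      EEz (fun i => if i ∈ S then z' else z) w := by
    intro S
    induction S using Finset.induction_on with
    | empty => simp
    | insert a S ha ih =>
      rw [ih, Finset.card_insert_of_notMem ha, pow_succ, mul_smul]
      congr 1
      apply EEz_change a _ _ _ c _ hw
      · intro k hk
        simp [hk]
      · intro Y
        simp [ha, h]
  have := key univ
  simpa using this

omit [Algebra ℂ A] [DecidableEq ι] in
lemma EEz_ext [DecidableEq ι] {κ μ : Type*} [Fintype κ] [Fintype μ] (φ : κ → μ)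
    (hφ : Function.Injective φ) (x : κ → Bool → A) (z : μ → Bool → A)
    (h1 : ∀ k s, z (φ k) s = x k s) (h2 : ∀ m, m ∉ Set.range φ → ∀ s, z m s = 0)
    {w : List (ι × Bool)} (hw : ∀ h, h ∈ w) :
    EEz (fun _ => z) w = EE x w := by
  unfold EEz EE
  symm
  refine Fintype.sum_of_injective (fun f : ι → κ => φ ∘ f) hφ.comp_left _ _ ?_ ?_
  · intro f hf
    have : ∃ i, f i ∉ Set.range φ := by
      by_contra hcon
      push Not at hcon
      apply hf
      choose g hg using hcon
      exact ⟨g, funext hg⟩
    obtain ⟨i, hi⟩ := this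
    unfold evz
    apply List.prod_eq_zero
    rw [List.mem_map]
    exact ⟨(i, false), hw _, h2 _ hi _⟩
  · intro f
    unfold ev evz
    simp [h1]

/-- Change of presentation. -/
theorem EE_change {κ κ' : Type*} [Fintype κ] [Fintype κ'] [Nonempty κ] (x : κ → Bool → A)
    (x' : κ' → Bool → A) (c : ℂ)
    (h : ∀ Y : A, ∑ m, x m false * Y * x m true = c • ∑ m, x' m false * Y * x' m true)
    {w : List (ι × Bool)} (hw : Full w) :
    EE x w = c ^ (Fintype.card ι) • EE x' w := by
  let z : κ ⊕ κ' → Bool → A := fun m s => Sum.elim (fun k => x k s) (fun _ => 0) m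
  let z' : κ ⊕ κ' → Bool → A := fun m s => Sum.elim (fun _ => 0) (fun k => x' k s) m
  have h1 : EEz (fun _ => z) w = EE x w := by
    refine EEz_ext (φ := Sum.inl) Sum.inl_injective x z (fun k s => rfl) ?_ hw.all
    rintro (m | m) hm s
    · exact absurd ⟨m, rfl⟩ hm
    · rfl
  have h2 : EEz (fun _ => z') w = EE x' w := by
    refine EEz_ext (φ := Sum.inr) Sum.inr_injective x' z' (fun k s => rfl) ?_ hw.all
    rintro (m | m) hm s
    · rfl
    · exact absurd ⟨m, rfl⟩ hm
  rw [← h1, ← h2]
  apply EEz_all z z' c _ hw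
  intro Y
  simp only [Fintype.sum_sum_type, z, z', Sum.elim_inl, Sum.elim_inr, zero_mul, mul_zero,
    Finset.sum_const_zero, add_zero, zero_add]
  exact h Y

end Pool.Agent.V11213.SlTwo
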