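import Pool.Agent.V11213.SlTwo.Diagram

/-!
# The oscillator representation
-/

open Finset Polynomial

namespace Pool.Agent.V11213.SlTwo

attribute [local instance 100] LieRing.ofAssociativeRing

variable {A : Type*} [Ring A] [Algebra ℂ A]

/-- The linear map underlying a representation, from the images of `E`, `F`, `H`. -/
def repLin (E F H : A) : sl2 →ₗ[ℂ] A where
  toFun M := M.1 0 1 • E + M.1 1 0 • F + M.1 0 0 • H
  map_add' M N := by
    have h : (M + N).1 = M.1 + N.1 := rfl
    rw [h, Matrix.add_apply, Matrix.add_apply, Matrix.add_apply, add_smul, add_smul, add_smul]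
    abel
  map_smul' c M := by
    have h : (c • M).1 = c • M.1 := rfl
    rw [h, Matrix.smul_apply, Matrix.smul_apply, Matrix.smul_apply]
    simp only [smul_eq_mul, mul_smul, smul_add, RingHom.id_apply]

lemma sl2_trace (M : sl2) : M.1 1 1 = - M.1 0 0 := by
  have h : Matrix.trace M.1 = 0 := LinearMap.mem_ker.1 M.2
  rw [Matrix.trace_fin_two] at h
  linear_combination h

/-- The Lie algebra homomorphism with given images of `E`, `F`, `H`. -/
def repHom (E F H : A) (h1 : E * F - F * E = H) (h2 : H * E - E * H = (2 : ℂ) • E)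
    (h3 : H * F - F * H = (-2 : ℂ) • F) : sl2 →ₗ⁅ℂ⁆ A where
  toLinearMap := repLin E F H
  map_lie' := by
    intro M N
    have hM := sl2_trace M
    have hN := sl2_trace N
    simp only [repLin, AddHom.toFun_eq_coe, AddHom.coe_mk]
    rw [LieAlgebra.SpecialLinear.sl_bracket]
    simp only [Matrix.sub_apply, Matrix.mul_apply, Fin.sum_univ_two, hM, hN]
    rw [LieRing.of_associative_ring_bracket]
    have e1 : E * F = F * E + H := by rw [← h1]; abel
    have e2 : H * E = E * H + (2 : ℂ) • E := by rw [← h2]; abel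
    have e3 : H * F = F * H + (-2 : ℂ) • F := by rw [← h3]; abel
    simp only [mul_add, add_mul, smul_mul_assoc, mul_smul_comm, e1, e2, e3, smul_add, smul_smul]
    module

lemma repHom_E (E F H : A) (h1 h2 h3) : repHom E F H h1 h2 h3 slE = E := by
  change slE.1 0 1 • E + slE.1 1 0 • F + slE.1 0 0 • H = E
  simp [slE]

lemma repHom_F (E F H : A) (h1 h2 h3) : repHom E F H h1 h2 h3 slF = F := by
  change slF.1 0 1 • E + slF.1 1 0 • F + slF.1 0 0 • H = F
  simp [slF]

lemma repHom_H (E F H : A) (h1 h2 h3) : repHom E F H h1 h2 h3 slH = H := by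
  change slH.1 0 1 • E + slH.1 1 0 • F + slH.1 0 0 • H = H
  simp [slH]

section osc

variable {p q : A}

omit [Algebra ℂ A] in
lemma pq_mul (hpq : p * q = q * p + 1) (z : A) : p * (q * z) = q * (p * z) + z := by
  rw [← mul_assoc, hpq, add_mul, mul_assoc, one_mul]

lemma osc1 (hpq : p * q = q * p + 1) :
    ((1/2 : ℂ) • (p * p)) * ((-1/2 : ℂ) • (q * q)) - ((-1/2 : ℂ) • (q * q)) * ((1/2 : ℂ) • (p * p))
      = (-1/2 : ℂ) • (p * q + q * p) := by
  simp only [smul_mul_assoc, mul_smul_comm, mul_assoc, hpq, pq_mul hpq, mul_add, add_mul,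
    smul_add, smul_smul, mul_one, one_mul]
  module

lemma osc2 (hpq : p * q = q * p + 1) :
    ((-1/2 : ℂ) • (p * q + q * p)) * ((1/2 : ℂ) • (p * p)) -
      ((1/2 : ℂ) • (p * p)) * ((-1/2 : ℂ) • (p * q + q * p)) = (2 : ℂ) • ((1/2 : ℂ) • (p * p)) := by
  simp only [smul_mul_assoc, mul_smul_comm, mul_assoc, hpq, pq_mul hpq, mul_add, add_mul,
    smul_add, smul_smul, mul_one, one_mul]
  module

lemma osc3 (hpq : p * q = q * p + 1) :
    ((-1/2 : ℂ) • (p * q + q * p)) * ((-1/2 : ℂ) • (q * q)) -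
      ((-1/2 : ℂ) • (q * q)) * ((-1/2 : ℂ) • (p * q + q * p)) =
      (-2 : ℂ) • ((-1/2 : ℂ) • (q * q)) := by
  simp only [smul_mul_assoc, mul_smul_comm, mul_assoc, hpq, pq_mul hpq, mul_add, add_mul,
    smul_add, smul_smul, mul_one, one_mul]
  module

/-- The oscillator representation as a Lie algebra homomorphism. -/
noncomputable def osc (hpq : p * q = q * p + 1) : sl2 →ₗ⁅ℂ⁆ A :=
  repHom _ _ _ (osc1 hpq) (osc2 hpq) (osc3 hpq)

lemma sqrt8_sq : (((1 / Real.sqrt 8 : ℝ) : ℂ)) * (((1 / Real.sqrt 8 : ℝ) : ℂ)) = 1/8 := by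
  rw [← Complex.ofReal_mul]
  have : (1 / Real.sqrt 8) * (1 / Real.sqrt 8) = 1/8 := by
    rw [div_mul_div_comm, Real.mul_self_sqrt (by norm_num)]
    norm_num
  rw [this]
  norm_num

/-- The tensor `∑ e_k ⊗ e_k` in terms of `E`, `F`, `H`. -/
lemma sum_ortho (φ : sl2 →ₗ⁅ℂ⁆ A) (Y : A) :
    ∑ k, φ (orthoBasis k) * Y * φ (orthoBasis k) =
      (1/4 : ℂ) • (φ slE * Y * φ slF + φ slF * Y * φ slE + (1/2 : ℂ) • (φ slH * Y * φ slH)) := by
  have h := sqrt8_sq
  set c : ℂ := ((1 / Real.sqrt 8 : ℝ) : ℂ) with hc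
  have e0 : φ (orthoBasis 0) = c • (φ slE + φ slF) := by
    unfold orthoBasis
    rw [if_pos rfl, map_smul, map_add]
  have e1 : φ (orthoBasis 1) = c • (Complex.I • (φ slE - φ slF)) := by
    unfold orthoBasis
    rw [if_neg (by decide), if_pos rfl, map_smul, map_smul, map_sub]
  have e2 : φ (orthoBasis 2) = c • (φ slH) := by
    unfold orthoBasis
    rw [if_neg (by decide), if_neg (by decide), map_smul]
  have hcc : ∀ (d : ℂ) (a b : A), (d • a) * Y * (d • b) = (d * d) • (a * Y * b) := by
    intro d a b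
    simp only [smul_mul_assoc, mul_smul_comm, smul_smul]
  rw [Fin.sum_univ_three, e0, e1, e2, hcc, hcc, hcc, hcc, h, Complex.I_mul_I]
  simp only [add_mul, mul_add, sub_mul, mul_sub, smul_add, smul_sub]
  module

/-- The Casimir tensor in the oscillator representation, in terms of the doubled tensor. -/
lemma osc_tensor (hpq : p * q = q * p + 1) (Y : A) :
    ∑ k, osc hpq (orthoBasis k) * Y * osc hpq (orthoBasis k) =
      (-1/32 : ℂ) • ∑ m, x2 (Xg p q) m false * Y * x2 (Xg p q) m true := by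
  rw [sum_ortho]
  unfold osc
  rw [repHom_E, repHom_F, repHom_H]
  simp only [Fintype.sum_prod_type, Fin.sum_univ_two, Fintype.univ_bool, Finset.sum_insert,
    Finset.mem_singleton, Bool.true_eq_false, not_false_eq_true, Finset.sum_singleton, x2, Xg,
    if_true, if_false, Bool.false_eq_true, one_ne_zero]
  simp only [smul_mul_assoc, mul_smul_comm, mul_assoc, mul_add, add_mul,
    smul_add, smul_smul, neg_mul, mul_neg, neg_neg]
  module

lemma osc_casimir (hpq : p * q = q * p + 1) :
    UniversalEnvelopingAlgebra.lift ℂ (osc hpq) casimir = (-3/32 : ℂ) • (1 : A) := by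
  unfold casimir
  simp only [map_smul, map_add, map_mul, UniversalEnvelopingAlgebra.lift_ι_apply]
  unfold osc
  rw [repHom_E, repHom_F, repHom_H]
  simp only [smul_mul_assoc, mul_smul_comm, mul_assoc, hpq, pq_mul hpq, mul_add, add_mul,
    smul_add, smul_smul, mul_one, one_mul]
  module

/-- The `sl(2)` weight system in the oscillator representation is a 4-invariant of the
intersection graph. -/
theorem osc_weight (hpq : p * q = q * p + 1) {n : ℕ} (D : ChordDiagram n) :
    UniversalEnvelopingAlgebra.lift ℂ (osc hpq) (weightSl2 D) =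
      ((-1/128) ^ n * (cpol D.interGraph).eval (-2)) • (1 : A) := by
  unfold weightSl2
  simp only [map_sum, map_list_prod, List.map_ofFn]
  have h1 : ∀ f : Fin n → Fin 3, (List.ofFn ((UniversalEnvelopingAlgebra.lift ℂ (osc hpq)) ∘
      fun p => UniversalEnvelopingAlgebra.ι ℂ (orthoBasis (f (D.chord p))))).prod =
      (List.ofFn fun p => (fun k => osc hpq (orthoBasis k)) (f (D.chord p))).prod := by
    intro f
    congr 2
    funext p
    simp only [Function.comp_apply, UniversalEnvelopingAlgebra.lift_ι_apply]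
  simp only [h1]
  refine (D.EE_hw (fun k => osc hpq (orthoBasis k))).trans ?_
  rw [EE_change _ (x2 (Xg p q)) (-1/32) (osc_tensor hpq) D.full_hw,
    EE_dbl_eq hpq D.full_hw D.length_hw D.interGraph (fun i j hij => D.adj_iff i j hij), smul_smul,
    Fintype.card_fin]
  congr 1
  rw [← mul_assoc, ← mul_pow]
  norm_num

end osc

end Pool.Agent.V11213.SlTwo
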