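import Pool.Agent.V11213.SlTwo.Poly

open Finset Polynomial

namespace Pool.Agent.V11213.SlTwo

variable {ι : Type*} [Fintype ι] [DecidableEq ι]

/-- Relative position sign: `-1` if `h'` comes before `h`. -/
noncomputable def bet (π : ι × Bool → ℕ) (h h' : ι × Bool) : ℂ := if π h' < π h then -1 else 1

/-- The crossing sign of two strands. -/
noncomputable def chi (π : ι × Bool → ℕ) (k l : ι) : ℂ :=
  bet π (k, false) (l, false) * bet π (k, false) (l, true) *
    (bet π (k, true) (l, false) * bet π (k, true) (l, true))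

/-- The orientation sign of a strand. -/
noncomputable def ori (π : ι × Bool → ℕ) (k : ι) : ℂ := bet π (k, false) (k, true)

/-- The factor of an ordered pair of strands. -/
noncomputable def pf (π : ι × Bool → ℕ) (σ : ι → ι → Bool) (k l : ι) : ℂ :=
  open Classical in if k ≠ l ∧ σ k l = true ∧ chi π k l = -1 then Complex.I else 1

/-- The weight of a colouring pattern. -/
noncomputable def wt (π : ι × Bool → ℕ) (σ : ι → ι → Bool) : ℂ :=
  (∏ k, ori π k) * ∏ k, ∏ l, pf π σ k l

omit [Fintype ι] [DecidableEq ι] in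
lemma bet_congr {π π' : ι × Bool → ℕ} {h h' k k' : ι × Bool}
    (H : π h' < π h ↔ π' k' < π' k) : bet π h h' = bet π' k k' := by
  simp only [bet, H]

omit [Fintype ι] [DecidableEq ι] in
lemma bet_eq (π : ι × Bool → ℕ) (h h' : ι × Bool) : bet π h h' = 1 ∨ bet π h h' = -1 := by
  unfold bet; split_ifs <;> simp

omit [Fintype ι] [DecidableEq ι] in
lemma bet_sq (π : ι × Bool → ℕ) (h h' : ι × Bool) : bet π h h' * bet π h h' = 1 := by
  unfold bet; split_ifs <;> simp

omit [Fintype ι] [DecidableEq ι] in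
lemma bet_anti (π : ι × Bool → ℕ) (h h' : ι × Bool) (hne : π h ≠ π h') :
    bet π h h' = - bet π h' h := by
  unfold bet
  rcases lt_or_gt_of_ne hne with h1 | h1
  · rw [if_neg (by omega), if_pos h1]; simp
  · rw [if_pos h1, if_neg (by omega)]

omit [Fintype ι] [DecidableEq ι] in
lemma chi_eq (π : ι × Bool → ℕ) (k l : ι) : chi π k l = 1 ∨ chi π k l = -1 := by
  unfold chi
  rcases bet_eq π (k, false) (l, false) with h1 | h1 <;>
  rcases bet_eq π (k, false) (l, true) with h2 | h2 <;>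
  rcases bet_eq π (k, true) (l, false) with h3 | h3 <;>
  rcases bet_eq π (k, true) (l, true) with h4 | h4 <;>
  simp [h1, h2, h3, h4]

omit [Fintype ι] in
/-- Product of the factors of the two orders of a pair. -/
lemma pf_mul (π : ι × Bool → ℕ) (σ : ι → ι → Bool) (k l : ι) (hkl : k ≠ l)
    (hσ : σ k l = σ l k) (hs : chi π k l = chi π l k) :
    pf π σ k l * pf π σ l k = if σ k l = true then chi π k l else 1 := by
  classical
  unfold pf
  rw [← hσ, ← hs]
  by_cases h : σ k l = true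
  · rcases chi_eq π k l with h1 | h1
    · have : ¬ ((1:ℂ) = -1) := by norm_num
      simp [h, h1, this]
    · simp [h, h1, hkl, hkl.symm]
  · simp [h]

/-- Data for the exchange relation: in `π` the half-edge `(i,s)` immediately precedes `(j,t)`,
in `π'` they are exchanged, and in `π''` the strand `j` is gone and `(i,s)` sits at the place of
`(j,!t)`. -/
structure R4 (π π' π'' : ι × Bool → ℕ) (i j : ι) (s t : Bool) : Prop where
  hij : i ≠ j
  lt : π (i, s) < π (j, t)
  adjL : ∀ h, h ≠ (i, s) → h ≠ (j, t) → bet π (i, s) h = bet π (j, t) h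
  adjR : ∀ h, h ≠ (i, s) → h ≠ (j, t) → bet π h (i, s) = bet π h (j, t)
  ne1 : π (i, s) ≠ π (i, !s)
  ne2 : π (j, t) ≠ π (j, !t)
  ne3 : π (i, !s) ≠ π (j, !t)
  sw : ∀ h h', ¬(h = (i, s) ∧ h' = (j, t)) → ¬(h = (j, t) ∧ h' = (i, s)) →
    bet π' h h' = bet π h h'
  sw1 : bet π' (i, s) (j, t) = - bet π (i, s) (j, t)
  sw2 : bet π' (j, t) (i, s) = - bet π (j, t) (i, s)
  k1 : ∀ h h' : ι × Bool, h.1 ≠ i → h.1 ≠ j → h'.1 ≠ i → h'.1 ≠ j → bet π'' h h' = bet π h h'
  x1 : ∀ h : ι × Bool, h.1 ≠ i → h.1 ≠ j → bet π'' (i, s) h = bet π (j, !t) h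
  x2 : ∀ h : ι × Bool, h.1 ≠ i → h.1 ≠ j → bet π'' h (i, s) = bet π h (j, !t)
  x3 : ∀ h : ι × Bool, h.1 ≠ i → h.1 ≠ j → bet π'' (i, !s) h = bet π (i, !s) h
  x4 : ∀ h : ι × Bool, h.1 ≠ i → h.1 ≠ j → bet π'' h (i, !s) = bet π h (i, !s)
  xx1 : bet π'' (i, s) (i, !s) = bet π (j, !t) (i, !s)
  xx2 : bet π'' (i, !s) (i, s) = bet π (i, !s) (j, !t)
  y1 : ∀ l, l ≠ j → chi π'' j l = 1
  y2 : ∀ l, l ≠ j → chi π'' l j = 1
  y3 : ori π'' j = 1
  sym : ∀ k l, k ≠ l → chi π k l = chi π l k
  sym'' : ∀ k l, k ≠ l → chi π'' k l = chi π'' l k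

namespace R4

variable {π π' π'' : ι × Bool → ℕ} {i j : ι} {s t : Bool}

omit [Fintype ι] [DecidableEq ι] in
lemma chi_sw (H : R4 π π' π'' i j s t) (k l : ι) (h1 : ¬(k = i ∧ l = j)) (h2 : ¬(k = j ∧ l = i)) :
    chi π' k l = chi π k l := by
  unfold chi
  rw [H.sw, H.sw, H.sw, H.sw]
  all_goals
    simp only [Prod.mk.injEq, not_and]
    tauto

omit [Fintype ι] [DecidableEq ι] in
lemma chi_sw_ij (H : R4 π π' π'' i j s t) : chi π' i j = - chi π i j := by
  have hs := H.sw
  have h1 := H.sw1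
  have hij := H.hij
  unfold chi
  cases s <;> cases t
  · rw [h1, H.sw (i, false) (j, true), H.sw (i, true) (j, false), H.sw (i, true) (j, true)]
    · ring
    all_goals simp [hij, hij.symm]
  · rw [h1, H.sw (i, false) (j, false), H.sw (i, true) (j, false), H.sw (i, true) (j, true)]
    · ring
    all_goals simp [hij, hij.symm]
  · rw [h1, H.sw (i, false) (j, false), H.sw (i, false) (j, true), H.sw (i, true) (j, true)]
    · ring
    all_goals simp [hij, hij.symm]
  · rw [h1, H.sw (i, false) (j, false), H.sw (i, false) (j, true), H.sw (i, true) (j, false)]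
    · ring
    all_goals simp [hij, hij.symm]

omit [Fintype ι] [DecidableEq ι] in
lemma chi_sw_ji (H : R4 π π' π'' i j s t) : chi π' j i = - chi π j i := by
  have hs := H.sw
  have h1 := H.sw2
  have hij := H.hij
  unfold chi
  cases s <;> cases t
  · rw [h1, H.sw (j, false) (i, true), H.sw (j, true) (i, false), H.sw (j, true) (i, true)]
    · ring
    all_goals simp [hij, hij.symm]
  · rw [h1, H.sw (j, false) (i, false), H.sw (j, false) (i, true), H.sw (j, true) (i, true)]
    · ring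
    all_goals simp [hij, hij.symm]
  · rw [h1, H.sw (j, false) (i, false), H.sw (j, true) (i, false), H.sw (j, true) (i, true)]
    · ring
    all_goals simp [hij, hij.symm]
  · rw [h1, H.sw (j, false) (i, false), H.sw (j, false) (i, true), H.sw (j, true) (i, false)]
    · ring
    all_goals simp [hij, hij.symm]

omit [Fintype ι] [DecidableEq ι] in
lemma ori_sw (H : R4 π π' π'' i j s t) (k : ι) : ori π' k = ori π k := by
  have hij := H.hij
  unfold ori
  rw [H.sw]
  all_goals
    simp only [Prod.mk.injEq, not_and]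
    intro h1 h2
    rcases h1 with ⟨rfl, _⟩
    first
      | exact absurd h2 hij
      | exact absurd h2 hij.symm
      | tauto

omit [Fintype ι] [DecidableEq ι] in
lemma chi_ik (H : R4 π π' π'' i j s t) (k : ι) (hi : k ≠ i) (hj : k ≠ j) :
    chi π'' i k = chi π i k * chi π j k := by
  have hs : ∀ (ρ : ι × Bool → ℕ) (l : ι) (b : Bool), chi ρ l k =
      (bet ρ (l, b) (k, false) * bet ρ (l, b) (k, true)) *
        (bet ρ (l, !b) (k, false) * bet ρ (l, !b) (k, true)) := by
    intro ρ l b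
    unfold chi
    cases b <;> simp [mul_comm]
  rw [hs π'' i s, hs π i s, hs π j t]
  rw [H.x1 _ (by simpa using hi) (by simpa using hj),
    H.x1 _ (by simpa using hi) (by simpa using hj),
    H.x3 _ (by simpa using hi) (by simpa using hj),
    H.x3 _ (by simpa using hi) (by simpa using hj),
    H.adjL (k, false) (by simp [hi]) (by simp [hj]),
    H.adjL (k, true) (by simp [hi]) (by simp [hj])]
  have h1 := bet_sq π (j, t) (k, false)
  have h2 := bet_sq π (j, t) (k, true)
  linear_combination (-bet π (j, !t) (k, false) * bet π (j, !t) (k, true) *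
        (bet π (i, !s) (k, false) * bet π (i, !s) (k, true))) * h1 +
        (-bet π (j, !t) (k, false) * bet π (j, !t) (k, true) *
        (bet π (i, !s) (k, false) * bet π (i, !s) (k, true))) *
        (bet π (j, t) (k, false) * bet π (j, t) (k, false)) * h2

/-- `+1` for `true`, `-1` for `false`. -/
def etaB (t : Bool) : ℂ := if t then 1 else -1

omit [Fintype ι] [DecidableEq ι] in
lemma ori_id (H : R4 π π' π'' i j s t) :
    ori π i * ori π j * chi π i j = - etaB t * ori π'' i := by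
  have hij := H.hij
  have h0 : bet π (i, s) (j, t) = 1 := by
    unfold bet; rw [if_neg]; have := H.lt; omega
  have e1 := H.adjL (j, !t) (by simp [hij.symm]) (by simp)
  have e2 := (H.adjR (i, !s) (by simp) (by simp [hij])).symm
  have a1 := bet_anti π _ _ H.ne1.symm
  have a2 := bet_anti π _ _ H.ne2.symm
  have a3 := bet_anti π _ _ H.ne3.symm
  have x1 := H.xx1
  have x2 := H.xx2
  unfold ori chi etaB
  obtain ⟨A, hA⟩ : ∃ A, bet π (i, s) (i, !s) = A := ⟨_, rfl⟩
  obtain ⟨B, hB⟩ : ∃ B, bet π (j, t) (j, !t) = B := ⟨_, rfl⟩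
  obtain ⟨D, hD⟩ : ∃ D, bet π (i, !s) (j, !t) = D := ⟨_, rfl⟩
  have qA : A * A = 1 := by rw [← hA]; exact bet_sq _ _ _
  have qB : B * B = 1 := by rw [← hB]; exact bet_sq _ _ _
  rw [hA] at a1
  rw [hB] at a2 e1
  rw [hD] at a3 x2
  rw [a3] at x1
  rw [a1] at e2
  clear H
  cases s <;> cases t <;>
    simp only [Bool.not_false, Bool.not_true, if_true, if_false, Bool.false_eq_true] at * <;>
    simp only [h0, e1, e2, a1, a2, a3, x1, x2, hA, hB, hD]
  · linear_combination (-D * B * B) * qA + (-D) * qB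
  · linear_combination (D * B * B) * qA + (D) * qB
  · linear_combination (D * B * B) * qA + (D) * qB
  · linear_combination (-D * B * B) * qA + (-D) * qB

lemma wt_of_ne (H : R4 π π' π'' i j s t) (σ : ι → ι → Bool) (h1 : σ i j = false)
    (h2 : σ j i = false) : wt π' σ = wt π σ := by
  unfold wt
  simp only [H.ori_sw]
  congr 1
  refine Finset.prod_congr rfl fun k _ => Finset.prod_congr rfl fun l _ => ?_
  unfold pf
  by_cases hkl : k = i ∧ l = j
  · obtain ⟨rfl, rfl⟩ := hkl
    simp [h1]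
  by_cases hlk : k = j ∧ l = i
  · obtain ⟨rfl, rfl⟩ := hlk
    simp [h2]
  rw [H.chi_sw k l hkl hlk]

lemma wt_of_eq (H : R4 π π' π'' i j s t) (σ : ι → ι → Bool) (h1 : σ i j = true)
    (h2 : σ j i = true) : wt π' σ = - wt π σ := by
  have hij := H.hij
  have hp : ∀ k l, ¬(k = i ∧ l = j) → ¬(k = j ∧ l = i) → pf π' σ k l = pf π σ k l := by
    intro k l hkl hlk
    unfold pf
    rw [H.chi_sw k l hkl hlk]
  have hs' : chi π' i j = chi π' j i := by
    rw [H.chi_sw_ij, H.chi_sw_ji, H.sym i j hij]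
  unfold wt
  simp only [H.ori_sw]
  rw [prod_split i j hij (pf π' σ), prod_split i j hij (pf π σ)]
  have e1 : pf π' σ i j * pf π' σ j i = - (pf π σ i j * pf π σ j i) := by
    rw [pf_mul π' σ i j hij (by rw [h1, h2]) hs', pf_mul π σ i j hij (by rw [h1, h2])
      (H.sym i j hij), h1, if_pos rfl, if_pos rfl, H.chi_sw_ij]
  have e2 : pf π' σ i i = pf π σ i i := hp _ _ (by tauto) (by tauto)
  have e3 : pf π' σ j j = pf π σ j j := hp _ _ (by tauto) (by tauto)
  have e4 : ∀ k ∈ (univ.erase i).erase j, pf π' σ i k * pf π' σ k i * (pf π' σ j k * pf π' σ k j)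
      = pf π σ i k * pf π σ k i * (pf π σ j k * pf π σ k j) := by
    intro k hk
    simp only [mem_erase, mem_univ, and_true] at hk
    obtain ⟨hkj, hki⟩ := hk
    rw [hp i k, hp k i, hp j k, hp k j] <;> tauto
  have e5 : ∀ k ∈ (univ.erase i).erase j, ∀ l ∈ (univ.erase i).erase j,
      pf π' σ k l = pf π σ k l := by
    intro k hk l hl
    simp only [mem_erase, mem_univ, and_true] at hk hl
    exact hp k l (by tauto) (by tauto)
  rw [Finset.prod_congr rfl e4, Finset.prod_congr rfl fun k hk => Finset.prod_congr rfl (e5 k hk)]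
  rw [mul_assoc (pf π' σ i i) (pf π' σ i j) (pf π' σ j i), e1, e2, e3]
  ring

lemma pf_one (ρ : ι × Bool → ℕ) (σ : ι → ι → Bool) (k l : ι) (h : k ≠ l → chi ρ k l = 1) :
    pf ρ σ k l = 1 := by
  unfold pf
  rw [if_neg]
  rintro ⟨h1, _, h3⟩
  rw [h h1] at h3
  norm_num at h3

lemma wt_join (H : R4 π π' π'' i j s t) (σ σ'' : ι → ι → Bool) (hs : ∀ k l, σ k l = σ l k)
    (h1 : σ i j = true) (h2 : ∀ k, k ≠ i → k ≠ j → σ i k = σ j k)
    (h3 : ∀ k l, k ≠ j → l ≠ j → σ'' k l = σ k l) : wt π σ = - etaB t * wt π'' σ'' := by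
  have hij := H.hij
  have hj : j ∈ (univ : Finset ι).erase i := by simp [hij.symm]
  have hu : ∀ F : ι → ℂ, ∏ k, F k = F i * (F j * ∏ k ∈ (univ.erase i).erase j, F k) := by
    intro F
    rw [Finset.mul_prod_erase _ F hj, Finset.mul_prod_erase _ F (Finset.mem_univ i)]
  unfold wt
  rw [prod_split i j hij (pf π σ), prod_split i j hij (pf π'' σ''), hu, hu (ori π'')]
  have o1 : ∀ k ∈ (univ.erase i).erase j, ori π k = ori π'' k := by
    intro k hk
    simp only [mem_erase, mem_univ, and_true] at hk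
    obtain ⟨hkj, hki⟩ := hk
    unfold ori
    rw [H.k1] <;> simpa
  have a1 : ∀ ρ (τ : ι → ι → Bool) k, pf ρ τ k k = 1 := fun ρ τ k => pf_one _ _ _ _ (by tauto)
  have a2 : pf π'' σ'' i j = 1 := pf_one _ _ _ _ fun _ => H.y2 i hij
  have a3 : pf π'' σ'' j i = 1 := pf_one _ _ _ _ fun _ => H.y1 i hij
  have a4 : pf π σ i j * pf π σ j i = chi π i j := by
    rw [pf_mul π σ i j hij (hs _ _) (H.sym i j hij), h1, if_pos rfl]
  have e4 : ∀ k ∈ (univ.erase i).erase j,
      pf π σ i k * pf π σ k i * (pf π σ j k * pf π σ k j)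
      = pf π'' σ'' i k * pf π'' σ'' k i * (pf π'' σ'' j k * pf π'' σ'' k j) := by
    intro k hk
    simp only [mem_erase, mem_univ, and_true] at hk
    obtain ⟨hkj, hki⟩ := hk
    rw [pf_mul π σ i k (Ne.symm hki) (hs _ _) (H.sym _ _ (Ne.symm hki)),
      pf_mul π σ j k (Ne.symm hkj) (hs _ _) (H.sym _ _ (Ne.symm hkj)),
      pf_mul π'' σ'' i k (Ne.symm hki) (by rw [h3 i k hij hkj, h3 k i hkj hij, hs])
        (H.sym'' _ _ (Ne.symm hki)),
      pf_one π'' σ'' j k (fun _ => H.y1 k hkj), pf_one π'' σ'' k j (fun _ => H.y2 k hkj),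
      h3 i k hij hkj, ← h2 k hki hkj, H.chi_ik k hki hkj]
    split_ifs <;> simp
  have e5 : ∀ k ∈ (univ.erase i).erase j, ∀ l ∈ (univ.erase i).erase j,
      pf π σ k l = pf π'' σ'' k l := by
    intro k hk l hl
    simp only [mem_erase, mem_univ, and_true] at hk hl
    unfold pf chi
    rw [h3 k l hk.1 hl.1, H.k1, H.k1, H.k1, H.k1] <;> simp [hk, hl]
  rw [Finset.prod_congr rfl e4, Finset.prod_congr rfl fun k hk => Finset.prod_congr rfl (e5 k hk),
    Finset.prod_congr rfl o1, a1, a1, a1, a1, a2, a3, H.y3, one_mul, a4]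
  have := H.ori_id
  linear_combination ((∏ k ∈ (univ.erase i).erase j, ori π'' k) *
    (∏ k ∈ (univ.erase i).erase j, pf π'' σ'' i k * pf π'' σ'' k i *
      (pf π'' σ'' j k * pf π'' σ'' k j)) *
    ∏ k ∈ (univ.erase i).erase j, ∏ l ∈ (univ.erase i).erase j, pf π'' σ'' k l) * this

end R4

end Pool.Agent.V11213.SlTwo
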