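import Pool.Agent.V11213.SlTwo.Eval

open Finset Polynomial

namespace Pool.Agent.V11213.SlTwo

variable {ι : Type*} [Fintype ι] [DecidableEq ι]

/-! ### Evaluation in the Weyl algebra -/

section weyl

variable {A : Type*} [Ring A] [Algebra ℂ A]

/-- Dual generators: `X 0 false = p`, `X 0 true = q`, `X 1 false = q`, `X 1 true = -p`. -/
def Xg (p q : A) (k : Fin 2) (s : Bool) : A :=
  if k = 0 then (if s then q else p) else (if s then -p else q)

/-- The symplectic form on the dual generators. -/
def om (k : Fin 2) (s : Bool) (l : Fin 2) (t : Bool) : ℂ :=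
  let a : ℂ := if k = 0 then (if s then 0 else 1) else (if s then -1 else 0)
  let b : ℂ := if k = 0 then (if s then 1 else 0) else (if s then 0 else 1)
  let a' : ℂ := if l = 0 then (if t then 0 else 1) else (if t then -1 else 0)
  let b' : ℂ := if l = 0 then (if t then 1 else 0) else (if t then 0 else 1)
  a * b' - b * a'

lemma om_comm {p q : A} (hpq : p * q = q * p + 1) (k : Fin 2) (s : Bool) (l : Fin 2) (t : Bool) :
    Xg p q k s * Xg p q l t = Xg p q l t * Xg p q k s + algebraMap ℂ A (om k s l t) := by
  fin_cases k <;> fin_cases l <;> cases s <;> cases t <;>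
    simp [Xg, om, hpq] <;> abel

lemma om_sum (p q : A) (k : Fin 2) (s t : Bool) :
    ∑ l, om k s l t • Xg p q l (!t) = R4.etaB t • Xg p q k s := by
  fin_cases k <;> cases s <;> cases t <;>
    simp [Xg, om, R4.etaB, Fin.sum_univ_two]

lemma X_sum {p q : A} (hpq : p * q = q * p + 1) (s : Bool) :
    ∑ l, Xg p q l s * Xg p q l (!s) = algebraMap ℂ A (-R4.etaB s) := by
  cases s <;> simp [Xg, R4.etaB, Fin.sum_univ_two, hpq]

/-- Value of a word for a given colouring. -/
def ev {κ : Type*} (x : κ → Bool → A) (w : List (ι × Bool)) (f : ι → κ) : A :=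
  (w.map fun h => x (f h.1) h.2).prod

/-- Value of a word. -/
def EE {κ : Type*} [Fintype κ] (x : κ → Bool → A) (w : List (ι × Bool)) : A :=
  ∑ f : ι → κ, ev x w f

omit [Algebra ℂ A] [Fintype ι] [DecidableEq ι] in
lemma ev_append {κ : Type*} (x : κ → Bool → A) (u v : List (ι × Bool)) (f : ι → κ) :
    ev x (u ++ v) f = ev x u f * ev x v f := by
  simp [ev]

omit [Algebra ℂ A] [Fintype ι] [DecidableEq ι] in
lemma ev_cons {κ : Type*} (x : κ → Bool → A) (h : ι × Bool) (v : List (ι × Bool)) (f : ι → κ) :
    ev x (h :: v) f = x (f h.1) h.2 * ev x v f := by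
  simp [ev]

omit [Algebra ℂ A] [Fintype ι] in
lemma ev_update {κ : Type*} (x : κ → Bool → A) (w : List (ι × Bool)) (f : ι → κ) (j : ι) (l : κ)
    (hw : ∀ b, (j, b) ∉ w) : ev x w (Function.update f j l) = ev x w f := by
  unfold ev
  congr 1
  apply List.map_congr_left
  intro h hh
  have : h.1 ≠ j := by
    rintro rfl
    exact hw h.2 hh
  rw [Function.update_of_ne this]

omit [Fintype ι] in
lemma map_rep_id (B : List (ι × Bool)) (j : ι) (t : Bool) (x : ι × Bool) (hB : ∀ b, (j, b) ∉ B) :
    B.map (rep (j, t) x) = B := by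
  have : B.map (rep (j, t) x) = B.map id := by
    apply List.map_congr_left
    intro h hh
    unfold rep
    rw [if_neg]
    · rfl
    · rintro rfl
      exact hB t hh
  rw [this, List.map_id]

lemma E_R4 {p q : A} (hpq : p * q = q * p + 1) {u r : List (ι × Bool)} {i j : ι} {s t : Bool}
    (hij : i ≠ j) (hw : Bal (u ++ (i, s) :: (j, t) :: r)) :
    (2 : ℂ) • EE (Xg p q) (u ++ (i, s) :: (j, t) :: r) =
      (2 : ℂ) • EE (Xg p q) (u ++ (j, t) :: (i, s) :: r) +
      R4.etaB t • EE (Xg p q) ((u ++ r).map (rep (j, !t) (i, s))) := by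
  obtain ⟨f1, f2, f3, f4, f5⟩ := mem_facts hij hw
  obtain ⟨B, D, hBD⟩ := List.append_of_mem f4
  -- `j` does not occur in `B`, `D`
  have hBD5 : (B ++ (j, !t) :: D).Nodup := hBD ▸ f5
  have hn : (j, !t) ∉ B ++ D := by
    have := (List.nodup_middle.1 hBD5)
    exact (List.nodup_cons.1 this).1
  have hjt : ∀ b, (j, b) ∉ B ++ D := by
    intro b hb
    by_cases hbt : b = t
    · subst hbt
      apply f2
      rw [hBD]
      simp only [List.mem_append, List.mem_cons] at hb ⊢
      tauto
    · have : b = !t := by cases b <;> cases t <;> simp_all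
      rw [this] at hb
      exact hn hb
  have hB : ∀ b, (j, b) ∉ B := fun b h => hjt b (by simp [h])
  have hD : ∀ b, (j, b) ∉ D := fun b h => hjt b (by simp [h])
  have hw'' : (u ++ r).map (rep (j, !t) (i, s)) = B ++ (i, s) :: D := by
    rw [hBD, List.map_append, List.map_cons, map_rep_id B j _ _ hB, map_rep_id D j _ _ hD]
    simp [rep]
  have hd : ∀ f : ι → Fin 2, ev (Xg p q) (u ++ (i, s) :: (j, t) :: r) f =
      ev (Xg p q) (u ++ (j, t) :: (i, s) :: r) f +
      om (f i) s (f j) t • ev (Xg p q) (u ++ r) f := by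
    intro f
    simp only [ev_append, ev_cons]
    rw [← mul_assoc (Xg p q (f i) s) (Xg p q (f j) t), om_comm hpq, add_mul, mul_add,
      Algebra.algebraMap_eq_smul_one, smul_mul_assoc, one_mul, mul_smul_comm]
    simp only [mul_assoc]
  have h2 : (2 : ℂ) • ∑ f : ι → Fin 2, om (f i) s (f j) t • ev (Xg p q) (u ++ r) f =
      R4.etaB t • EE (Xg p q) ((u ++ r).map (rep (j, !t) (i, s))) := by
    have h1 := sum_update (ι := ι) (κ := Fin 2) j (fun f =>
      om (f i) s (f j) t • ev (Xg p q) (u ++ r) f)
    rw [Fintype.card_fin] at h1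
    have h3 : (2 : ℂ) • ∑ f : ι → Fin 2, om (f i) s (f j) t • ev (Xg p q) (u ++ r) f =
        2 • ∑ f : ι → Fin 2, om (f i) s (f j) t • ev (Xg p q) (u ++ r) f := by
      rw [two_smul, two_smul]
    rw [h3, ← h1, hw'', EE, Finset.smul_sum]
    refine Finset.sum_congr rfl fun f _ => ?_
    have h4 : ∀ l : Fin 2, om (Function.update f j l i) s (Function.update f j l j) t •
        ev (Xg p q) (u ++ r) (Function.update f j l) =
        ev (Xg p q) B f * (om (f i) s l t • Xg p q l (!t)) * ev (Xg p q) D f := by
      intro l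
      rw [Function.update_self, Function.update_of_ne hij, hBD, ev_append, ev_cons,
        ev_update _ _ _ _ _ hB, ev_update _ _ _ _ _ hD, Function.update_self]
      simp only [mul_smul_comm, smul_mul_assoc, mul_assoc]
    simp only [h4]
    rw [← Finset.sum_mul, ← Finset.mul_sum, om_sum, ev_append, ev_cons]
    simp only [mul_smul_comm, smul_mul_assoc, mul_assoc]
  unfold EE at h2 ⊢
  rw [← h2, Finset.sum_congr rfl fun f _ => hd f, Finset.sum_add_distrib, smul_add]

lemma E_R3 {p q : A} (hpq : p * q = q * p + 1) {u v : List (ι × Bool)} {i : ι} {s : Bool}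
    (hw : Bal (u ++ (i, s) :: (i, !s) :: v)) :
    (2 : ℂ) • EE (Xg p q) (u ++ (i, s) :: (i, !s) :: v) =
      (-R4.etaB s) • EE (Xg p q) (u ++ v) := by
  obtain ⟨habs, hb⟩ := bal_R3 hw
  have hu : ∀ b, (i, b) ∉ u := fun b h => habs b (by simp [h])
  have hv : ∀ b, (i, b) ∉ v := fun b h => habs b (by simp [h])
  have h1 := sum_update (ι := ι) (κ := Fin 2) i (fun f =>
      ev (Xg p q) (u ++ (i, s) :: (i, !s) :: v) f)
  rw [Fintype.card_fin] at h1
  have h3 : (2 : ℂ) • EE (Xg p q) (u ++ (i, s) :: (i, !s) :: v) =
      2 • ∑ f : ι → Fin 2, ev (Xg p q) (u ++ (i, s) :: (i, !s) :: v) f := by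
    rw [two_smul, two_smul]; rfl
  rw [h3, ← h1, EE, Finset.smul_sum]
  refine Finset.sum_congr rfl fun f _ => ?_
  have h4 : ∀ l : Fin 2, ev (Xg p q) (u ++ (i, s) :: (i, !s) :: v) (Function.update f i l) =
      ev (Xg p q) u f * (Xg p q l s * Xg p q l (!s)) * ev (Xg p q) v f := by
    intro l
    simp only [ev_append, ev_cons, Function.update_self]
    rw [ev_update _ _ _ _ _ hu, ev_update _ _ _ _ _ hv]
    simp only [mul_assoc]
  simp only [h4]
  rw [← Finset.sum_mul, ← Finset.mul_sum, X_sum hpq, ev_append,
    Algebra.algebraMap_eq_smul_one]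
  simp only [mul_smul_comm, smul_mul_assoc, mul_one]

/-- Main evaluation theorem: the Weyl algebra value of a balanced word is the value at `-2` of the
polynomial counting colourings. -/
theorem E_eq {p q : A} (hpq : p * q = q * p + 1) : ∀ (m : ℕ) (w : List (ι × Bool)), Bal w →
    w.length = 2 * m → EE (Xg p q) w =
      ((-1) ^ (Fintype.card ι) * (1/2) ^ m * (Q w).eval (-2)) • (1 : A) := by
  intro m
  induction m with
  | zero =>
    intro w hw hl
    have : w = [] := by
      apply List.eq_nil_of_length_eq_zero
      omega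
    subst this
    rw [Q_nil]
    simp only [EE, ev, List.map_nil, List.prod_nil, Finset.sum_const, Finset.card_univ,
      Fintype.card_pi, Fintype.card_fin, Finset.prod_const, pow_zero, mul_one, eval_pow, eval_X]
    rw [← mul_pow]
    norm_num
    rw [← Algebra.algebraMap_eq_smul_one, map_pow, map_ofNat]
  | succ m ih =>
    have key : ∀ (pre u v : List (ι × Bool)) (i : ι) (s : Bool),
        Bal (u ++ (i, s) :: (pre ++ (i, !s) :: v)) →
        (u ++ (i, s) :: (pre ++ (i, !s) :: v)).length = 2 * (m + 1) →
        EE (Xg p q) (u ++ (i, s) :: (pre ++ (i, !s) :: v)) =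
          ((-1) ^ (Fintype.card ι) * (1/2) ^ (m + 1) *
            (Q (u ++ (i, s) :: (pre ++ (i, !s) :: v))).eval (-2)) • (1 : A) := by
      intro pre
      induction pre with
      | nil =>
        intro u v i s hw hl
        rw [List.nil_append] at hw hl ⊢
        have h1 := E_R3 hpq hw
        have h2 := Q_R3 hw
        rw [h2, eval_mul, eval_C]
        have h3 := ih (u ++ v) (bal_R3 hw).2 (by
          simp only [List.length_append, List.length_cons] at hl ⊢; omega)
        have h4 : EE (Xg p q) (u ++ (i, s) :: (i, !s) :: v) =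
            (1/2 : ℂ) • ((-R4.etaB s) • EE (Xg p q) (u ++ v)) := by
          rw [← h1, smul_smul]; norm_num
        rw [h4, h3, smul_smul, smul_smul]
        congr 1
        ring
      | cons y pre ihp =>
        intro u v i s hw hl
        obtain ⟨j, t⟩ := y
        rw [List.cons_append] at hw hl ⊢
        have hij : i ≠ j := by
          rintro rfl
          have hn := hw.1
          have h1 : ((i, s) :: (i, t) :: (pre ++ (i, !s) :: v)).Nodup :=
            (List.nodup_append.1 hn).2.1
          rw [List.nodup_cons, List.nodup_cons] at h1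
          by_cases hts : t = s
          · subst hts; exact h1.1 (by simp)
          · have : t = !s := by cases t <;> cases s <;> simp_all
            subst this
            exact h1.2.1 (by simp)
        have h1 := E_R4 hpq hij hw
        have h2 := Q_R4 hij hw
        have h3 := ih _ (bal_join hij hw) (by
          simp only [List.length_map, List.length_append, List.length_cons] at hl ⊢; omega)
        have h4 := ihp (u ++ [(j, t)]) v i s (by
          have := bal_swap hw
          simpa using this) (by
          simp only [List.length_append, List.length_cons, List.length_nil] at hl ⊢; omega)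
        have h5 : u ++ [(j, t)] ++ (i, s) :: (pre ++ (i, !s) :: v) =
          u ++ (j, t) :: (i, s) :: (pre ++ (i, !s) :: v) := by simp
        rw [h5] at h4
        have h6 : EE (Xg p q) (u ++ (i, s) :: (j, t) :: (pre ++ (i, !s) :: v)) =
            EE (Xg p q) (u ++ (j, t) :: (i, s) :: (pre ++ (i, !s) :: v)) + (1/2 : ℂ) •
            (R4.etaB t • EE (Xg p q) ((u ++ (pre ++ (i, !s) :: v)).map (rep (j, !t) (i, s)))) := by
          have := congrArg (fun z => (1/2 : ℂ) • z) h1
          simp only [smul_add, smul_smul] at this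
          norm_num at this
          rw [this, smul_smul]
          norm_num
        rw [h6, h2, h3, h4, smul_smul, smul_smul, ← add_smul]
        congr 1
        ring
    intro w hw hl
    match w, hw, hl with
    | [], _, hl => simp at hl
    | (i, s) :: rest, hw, hl =>
      have h1 : (i, !s) ∈ rest := by
        have := hw.2 (i, s) (by simp)
        simpa using this
      obtain ⟨pre, v, rfl⟩ := List.append_of_mem h1
      exact key pre [] v i s hw hl

end weyl

end Pool.Agent.V11213.SlTwo
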