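import Pool.Agent.V11213.SlTwo.Weight

open Finset Polynomial

namespace Pool.Agent.V11213.SlTwo

section idx

variable {H : Type*} [BEq H] [LawfulBEq H]

lemma idx_ins (h a b : H) (u r : List H) (ha : h ≠ a) (hb : h ≠ b) :
    (h ∈ u ∧ (u ++ a :: b :: r).idxOf h = u.idxOf h ∧ (u ++ r).idxOf h = u.idxOf h ∧
      u.idxOf h < u.length) ∨
    (h ∉ u ∧ (u ++ a :: b :: r).idxOf h = u.length + 2 + r.idxOf h ∧
      (u ++ r).idxOf h = u.length + r.idxOf h) := by
  by_cases hu : h ∈ u
  · left
    refine ⟨hu, List.idxOf_append_of_mem hu, List.idxOf_append_of_mem hu,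
      List.idxOf_lt_length_of_mem hu⟩
  · right
    refine ⟨hu, ?_, List.idxOf_append_of_notMem hu⟩
    rw [List.idxOf_append_of_notMem hu, List.idxOf_cons_ne _ (Ne.symm ha),
      List.idxOf_cons_ne _ (Ne.symm hb)]
    omega

lemma idxOf_map_inj (φ : H → H) (l : List H) (h : H) (hφ : ∀ k ∈ l, φ k = φ h → k = h) :
    (l.map φ).idxOf (φ h) = l.idxOf h := by
  induction l with
  | nil => simp
  | cons a l ih =>
    by_cases hah : a = h
    · subst hah; simp
    · have : φ a ≠ φ h := fun h' => hah (hφ a (by simp) h')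
      rw [List.map_cons, List.idxOf_cons_ne _ this, List.idxOf_cons_ne _ hah,
        ih fun k hk => hφ k (by simp [hk])]

end idx

variable {ι : Type*} [Fintype ι] [DecidableEq ι]

/-- Balanced words: no repetitions, and closed under passing to the opposite half-edge. -/
def Bal (w : List (ι × Bool)) : Prop := w.Nodup ∧ ∀ h ∈ w, (h.1, !h.2) ∈ w

/-- Position function of a word. -/
def pos (w : List (ι × Bool)) (h : ι × Bool) : ℕ := w.idxOf h

omit [Fintype ι] in
lemma pos_lt {w : List (ι × Bool)} {h : ι × Bool} (hw : h ∈ w) : pos w h < w.length :=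
  List.idxOf_lt_length_of_mem hw

omit [Fintype ι] in
lemma pos_absent {w : List (ι × Bool)} {h : ι × Bool} (hw : h ∉ w) : pos w h = w.length :=
  List.idxOf_eq_length hw

omit [Fintype ι] in
lemma pos_le (w : List (ι × Bool)) (h : ι × Bool) : pos w h ≤ w.length :=
  List.idxOf_le_length

omit [Fintype ι] in
lemma pos_ne {w : List (ι × Bool)} {h h' : ι × Bool} (hw : h ∈ w) (hne : h ≠ h') :
    pos w h ≠ pos w h' := by
  intro h1
  exact hne ((List.idxOf_inj hw).1 h1)

omit [Fintype ι] in
lemma chi_absent (w : List (ι × Bool)) (k : ι) (h1 : ∀ b, (k, b) ∉ w) (l : ι) :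
    chi (pos w) k l = 1 ∧ chi (pos w) l k = 1 := by
  have p1 := pos_absent (h1 false)
  have p2 := pos_absent (h1 true)
  have e : ∀ h, bet (pos w) (k, true) h = bet (pos w) (k, false) h := by
    intro h
    exact bet_congr (by rw [p1, p2])
  have e1 : ∀ b h, bet (pos w) h (k, b) = 1 := by
    intro b h
    unfold bet
    rw [pos_absent (h1 b), if_neg]
    have := pos_le w h
    omega
  constructor
  · unfold chi
    rw [e, e]
    exact (by
      have h1 := bet_sq (pos w) (k, false) (l, false)
      have h2 := bet_sq (pos w) (k, false) (l, true)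
      linear_combination (bet (pos w) (k, false) (l, true) * bet (pos w) (k, false) (l, true)) * h1
        + h2)
  · unfold chi
    simp [e1]

omit [Fintype ι] in
lemma ori_absent (w : List (ι × Bool)) (k : ι) (h1 : ∀ b, (k, b) ∉ w) :
    ori (pos w) k = 1 := by
  unfold ori bet
  rw [pos_absent (h1 _), pos_absent (h1 _), if_neg (lt_irrefl _)]

omit [Fintype ι] in
lemma chi_sym {w : List (ι × Bool)} (hw : Bal w) (k l : ι) (hkl : k ≠ l) :
    chi (pos w) k l = chi (pos w) l k := by
  have key : ∀ k : ι, (∀ b, (k, b) ∈ w) ∨ ∀ b, (k, b) ∉ w := by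
    intro k
    by_cases h : (k, false) ∈ w
    · left
      have := hw.2 _ h
      intro b
      cases b
      · exact h
      · exact this
    · right
      intro b
      cases b
      · exact h
      · intro h'
        exact h (hw.2 _ h')
  rcases key k with hk | hk
  · have hb : ∀ a b, bet (pos w) (k, a) (l, b) = - bet (pos w) (l, b) (k, a) := by
      intro a b
      exact bet_anti _ _ _ (pos_ne (hk a) (by simp [hkl]))
    unfold chi
    simp only [hb]
    ring
  · rw [(chi_absent w k hk l).1, (chi_absent w k hk l).2]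

/-- Replace `a` by `b`. -/
def rep {H : Type*} [DecidableEq H] (a b h : H) : H := if h = a then b else h

omit [Fintype ι] [DecidableEq ι] in
lemma bal_swap {u r : List (ι × Bool)} {x y : ι × Bool} (hw : Bal (u ++ x :: y :: r)) :
    Bal (u ++ y :: x :: r) := by
  have hp : (u ++ x :: y :: r).Perm (u ++ y :: x :: r) :=
    List.Perm.append_left u (List.Perm.swap y x r)
  refine ⟨hp.nodup_iff.1 hw.1, fun h hh => ?_⟩
  exact hp.mem_iff.1 (hw.2 h (hp.mem_iff.2 hh))

section R4w

variable {u r : List (ι × Bool)} {i j : ι} {s t : Bool}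

omit [Fintype ι] [DecidableEq ι] in
lemma mem_facts (hij : i ≠ j) (hw : Bal (u ++ (i, s) :: (j, t) :: r)) :
    (i, s) ∉ u ++ r ∧ (j, t) ∉ u ++ r ∧ (i, !s) ∈ u ++ r ∧ (j, !t) ∈ u ++ r ∧ (u ++ r).Nodup := by
  have h1 : (u ++ (i, s) :: (j, t) :: r).Perm ((i, s) :: (j, t) :: (u ++ r)) := by
    refine List.perm_middle.trans ?_
    exact List.Perm.cons _ List.perm_middle
  have h2 := h1.nodup_iff.1 hw.1
  rw [List.nodup_cons, List.nodup_cons] at h2
  obtain ⟨h3, h4, h5⟩ := h2
  have m1 := h1.mem_iff.1 (hw.2 (i, s) (by simp))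
  have m2 := h1.mem_iff.1 (hw.2 (j, t) (by simp))
  refine ⟨fun h => h3 (List.mem_cons_of_mem _ h), h4, ?_, ?_, h5⟩
  · simpa [hij] using m1
  · simpa [hij.symm] using m2

omit [Fintype ι] in
lemma bal_join (hij : i ≠ j) (hw : Bal (u ++ (i, s) :: (j, t) :: r)) :
    Bal ((u ++ r).map (rep (j, !t) (i, s))) := by
  obtain ⟨f1, f2, f3, f4, f5⟩ := mem_facts hij hw
  have hmem : ∀ h ∈ u ++ r, h ≠ (j, !t) → h ≠ (i, !s) → (h.1, !h.2) ∈ u ++ r := by
    intro h hh h1 h2
    have h3 : (h.1, !h.2) ∈ u ++ (i, s) :: (j, t) :: r := by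
      apply hw.2
      simp only [List.mem_append, List.mem_cons] at hh ⊢
      tauto
    simp only [List.mem_append, List.mem_cons] at h3 ⊢
    rcases h3 with h3 | h3 | h3 | h3
    · exact Or.inl h3
    · exfalso; apply h2
      rw [Prod.ext_iff] at h3 ⊢
      simp only at h3 ⊢
      refine ⟨h3.1, ?_⟩
      rw [← h3.2, Bool.not_not]
    · exfalso; apply h1
      rw [Prod.ext_iff] at h3 ⊢
      simp only at h3 ⊢
      refine ⟨h3.1, ?_⟩
      rw [← h3.2, Bool.not_not]
    · exact Or.inr h3
  constructor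
  · rw [List.nodup_map_iff_inj_on f5]
    intro a ha b hb hab
    unfold rep at hab
    split_ifs at hab with h1 h2 h2
    · rw [h1, h2]
    · exact absurd (hab ▸ hb) f1
    · exact absurd (hab ▸ ha) f1
    · exact hab
  · intro h hh
    rw [List.mem_map] at hh
    obtain ⟨h0, hh0, rfl⟩ := hh
    rw [List.mem_map]
    by_cases c1 : h0 = (j, !t)
    · refine ⟨(i, !s), f3, ?_⟩
      subst c1
      simp [rep, hij]
    by_cases c2 : h0 = (i, !s)
    · refine ⟨(j, !t), f4, ?_⟩
      subst c2
      simp [rep, hij]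
    · refine ⟨(h0.1, !h0.2), hmem h0 hh0 c1 c2, ?_⟩
      have c3 : (h0.1, !h0.2) ≠ (j, !t) := by
        intro h
        rw [Prod.ext_iff] at h
        simp only at h
        have : h0 = (j, t) := by
          rw [Prod.ext_iff]
          exact ⟨h.1, by simpa using h.2⟩
        rw [this] at hh0
        exact f2 hh0
      simp [rep, c1, c3]

omit [Fintype ι] in
lemma r4_words (hij : i ≠ j) (hw : Bal (u ++ (i, s) :: (j, t) :: r)) :
    R4 (pos (u ++ (i, s) :: (j, t) :: r)) (pos (u ++ (j, t) :: (i, s) :: r))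
      (pos ((u ++ r).map (rep (j, !t) (i, s)))) i j s t := by
  obtain ⟨f1, f2, f3, f4, f5⟩ := mem_facts hij hw
  have hb' := bal_swap hw
  have hb'' := bal_join hij hw
  have hu1 : (i, s) ∉ u := fun h => f1 (by simp [h])
  have hu2 : (j, t) ∉ u := fun h => f2 (by simp [h])
  -- position computations
  have px : pos (u ++ (i, s) :: (j, t) :: r) (i, s) = u.length := by
    unfold pos; rw [List.idxOf_append_of_notMem hu1, List.idxOf_cons_self]; rfl
  have py : pos (u ++ (i, s) :: (j, t) :: r) (j, t) = u.length + 1 := by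
    unfold pos
    rw [List.idxOf_append_of_notMem hu2, List.idxOf_cons_ne _ (by simp [hij]),
      List.idxOf_cons_self]
  have px' : pos (u ++ (j, t) :: (i, s) :: r) (i, s) = u.length + 1 := by
    unfold pos
    rw [List.idxOf_append_of_notMem hu1, List.idxOf_cons_ne _ (by simp [hij.symm]),
      List.idxOf_cons_self]
  have py' : pos (u ++ (j, t) :: (i, s) :: r) (j, t) = u.length := by
    unfold pos; rw [List.idxOf_append_of_notMem hu2, List.idxOf_cons_self]; rfl
  have p1 : ∀ h, h ≠ (i, s) → h ≠ (j, t) →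
      (pos (u ++ (i, s) :: (j, t) :: r) h = pos (u ++ r) h ∧ pos (u ++ r) h < u.length) ∨
      (pos (u ++ (i, s) :: (j, t) :: r) h = pos (u ++ r) h + 2 ∧ u.length ≤ pos (u ++ r) h) := by
    intro h h1 h2
    unfold pos
    rcases idx_ins h _ _ u r h1 h2 with h3 | h3 <;> omega
  have p2 : ∀ h, h ≠ (i, s) → h ≠ (j, t) →
      pos (u ++ (j, t) :: (i, s) :: r) h = pos (u ++ (i, s) :: (j, t) :: r) h := by
    intro h h1 h2
    unfold pos
    rcases idx_ins h _ _ u r h1 h2 with h3 | h3 <;>
    rcases idx_ins h _ _ u r h2 h1 with h4 | h4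
    · rw [h3.2.1, h4.2.1]
    · exact absurd h3.1 h4.1
    · exact absurd h4.1 h3.1
    · rw [h3.2.1, h4.2.1]
  have p3 : ∀ h, h ≠ (i, s) → h ≠ (j, !t) →
      pos ((u ++ r).map (rep (j, !t) (i, s))) h = pos (u ++ r) h := by
    intro h h1 h2
    have e : rep (j, !t) (i, s) h = h := by simp [rep, h2]
    have := idxOf_map_inj (rep (j, !t) (i, s)) (u ++ r) h (by
      intro k hk hkh
      rw [e] at hkh
      unfold rep at hkh
      split_ifs at hkh with h3
      · exact absurd hkh.symm h1
      · exact hkh)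
    rw [e] at this
    exact this
  have p4 : pos ((u ++ r).map (rep (j, !t) (i, s))) (i, s) = pos (u ++ r) (j, !t) := by
    have e : rep (j, !t) (i, s) (j, !t) = (i, s) := by simp [rep]
    have := idxOf_map_inj (rep (j, !t) (i, s)) (u ++ r) (j, !t) (by
      intro k hk hkh
      rw [e] at hkh
      unfold rep at hkh
      split_ifs at hkh with h3
      · exact h3
      · exact absurd (hkh ▸ hk) f1)
    rw [e] at this
    exact this
  have abs'' : ∀ b, (j, b) ∉ (u ++ r).map (rep (j, !t) (i, s)) := by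
    intro b hb
    rw [List.mem_map] at hb
    obtain ⟨k, hk, hkb⟩ := hb
    unfold rep at hkb
    split_ifs at hkb with h3
    · exact hij (congrArg Prod.fst hkb)
    · subst hkb
      by_cases hbt : b = t
      · subst hbt; exact f2 hk
      · apply h3
        have : b = !t := by cases b <;> cases t <;> simp_all
        rw [this]
  have nx : ∀ h : ι × Bool, h.1 ≠ i → h ≠ (i, s) := fun h h1 h2 => h1 (by rw [h2])
  have ny : ∀ h : ι × Bool, h.1 ≠ j → h ≠ (j, t) := fun h h1 h2 => h1 (by rw [h2])
  have nyb : ∀ h : ι × Bool, h.1 ≠ j → h ≠ (j, !t) := fun h h1 h2 => h1 (by rw [h2])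
  have xb1 : ((i, !s) : ι × Bool) ≠ (i, s) := by simp
  have xb2 : ((i, !s) : ι × Bool) ≠ (j, t) := by simp [hij]
  have xb3 : ((i, !s) : ι × Bool) ≠ (j, !t) := by simp [hij]
  have yb1 : ((j, !t) : ι × Bool) ≠ (i, s) := by simp [hij.symm]
  have yb2 : ((j, !t) : ι × Bool) ≠ (j, t) := by simp
  constructor
  case hij => exact hij
  case lt => omega
  case adjL =>
    intro h h1 h2
    apply bet_congr
    have := p1 h h1 h2
    omega
  case adjR =>
    intro h h1 h2
    apply bet_congr
    have := p1 h h1 h2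
    omega
  case ne1 =>
    have := p1 _ xb1 xb2
    omega
  case ne2 =>
    have := p1 _ yb1 yb2
    omega
  case ne3 => exact pos_ne (hw.2 (i, s) (by simp)) xb3
  case sw =>
    intro h h' h1 h2
    apply bet_congr
    by_cases a1 : h = (i, s)
    · subst a1
      have a2 : h' ≠ (j, t) := fun h => h1 ⟨rfl, h⟩
      by_cases a3 : h' = (i, s)
      · subst a3; omega
      · rw [p2 h' a3 a2]
        have := p1 h' a3 a2
        omega
    · by_cases a2 : h = (j, t)
      · subst a2
        have a2 : h' ≠ (i, s) := fun h => h2 ⟨rfl, h⟩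
        by_cases a3 : h' = (j, t)
        · subst a3; omega
        · rw [p2 h' a2 a3]
          have := p1 h' a2 a3
          omega
      · rw [p2 h a1 a2]
        have q := p1 h a1 a2
        by_cases a3 : h' = (i, s)
        · subst a3; omega
        by_cases a4 : h' = (j, t)
        · subst a4; omega
        rw [p2 h' a3 a4]
  case sw1 =>
    unfold bet
    rw [px, py, px', py', if_pos (by omega), if_neg (by omega)]
  case sw2 =>
    unfold bet
    rw [px, py, px', py', if_neg (by omega), if_pos (by omega)]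
    simp
  case k1 =>
    intro h h' h1 h2 h3 h4
    apply bet_congr
    rw [p3 h (nx h h1) (nyb h h2), p3 h' (nx h' h3) (nyb h' h4)]
    have := p1 h (nx h h1) (ny h h2)
    have := p1 h' (nx h' h3) (ny h' h4)
    omega
  case x1 =>
    intro h h1 h2
    apply bet_congr
    rw [p3 h (nx h h1) (nyb h h2), p4]
    have := p1 h (nx h h1) (ny h h2)
    have := p1 _ yb1 yb2
    omega
  case x2 =>
    intro h h1 h2
    apply bet_congr
    rw [p3 h (nx h h1) (nyb h h2), p4]
    have := p1 h (nx h h1) (ny h h2)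
    have := p1 _ yb1 yb2
    omega
  case x3 =>
    intro h h1 h2
    apply bet_congr
    rw [p3 h (nx h h1) (nyb h h2), p3 _ xb1 xb3]
    have := p1 h (nx h h1) (ny h h2)
    have := p1 _ xb1 xb2
    omega
  case x4 =>
    intro h h1 h2
    apply bet_congr
    rw [p3 h (nx h h1) (nyb h h2), p3 _ xb1 xb3]
    have := p1 h (nx h h1) (ny h h2)
    have := p1 _ xb1 xb2
    omega
  case xx1 =>
    apply bet_congr
    rw [p4, p3 _ xb1 xb3]
    have := p1 _ xb1 xb2
    have := p1 _ yb1 yb2
    omega
  case xx2 =>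
    apply bet_congr
    rw [p4, p3 _ xb1 xb3]
    have := p1 _ xb1 xb2
    have := p1 _ yb1 yb2
    omega
  case y1 => intro l _; exact (chi_absent _ j abs'' l).1
  case y2 => intro l _; exact (chi_absent _ j abs'' l).2
  case y3 => exact ori_absent _ j abs''
  case sym => exact fun k l h => chi_sym hw k l h
  case sym'' => exact fun k l h => chi_sym hb'' k l h

end R4w

end Pool.Agent.V11213.SlTwo
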